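import Pool.Agent.Lib.MP_9f84a9_co.V.StmV

/-!
# MP_9f84a9_co, module V, piece Va2: removal and exchange
-/

set_option autoImplicit false

namespace Pool.Agent.Lib.MP_9f84a9_co

open Finset Filter Topology

/-- a set which contains `X.erase c` and joins the ends of `c` joins all classes -/
private theorem va2_join (hVa1 : S_Va1) {ι : Type} [DecidableEq ι] (Cl : Finset ℕ)
    (e : ι → ℕ × ℕ) (X Y : Finset ι) (c : ι) (hX : AJ Cl e X) (hY : X.erase c ⊆ Y)
    (h : AR e Y (e c).1 (e c).2) : AJ Cl e Y := by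
  have mono : ∀ a b, AR e (X.erase c) a b → AR e Y a b := fun a b h' =>
    (hVa1 ι e (X.erase c) a b).2.1 Y hY h'
  have symm : ∀ a b, AR e Y a b → AR e Y b a := fun a b h' => (hVa1 ι e Y a b).1 h'
  have trans : ∀ a b d, AR e Y a b → AR e Y b d → AR e Y a d := fun a b d h1 h2 =>
    Relation.ReflTransGen.trans h1 h2
  intro a ha b hb
  rcases (hVa1 ι e X a b).2.2 c (hX a ha b hb) with h1 | ⟨h1, h2⟩ | ⟨h1, h2⟩
  · exact mono a b h1
  · exact trans _ _ _ (mono _ _ h1) (trans _ _ _ h (symm _ _ (mono _ _ h2)))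
  · exact trans _ _ _ (mono _ _ h1) (trans _ _ _ (symm _ _ h) (symm _ _ (mono _ _ h2)))

theorem t_Va2 (hVa1 : S_Va1) : S_Va2 := by
  intro ι _ Cl U e w hMS X hX c hc
  obtain ⟨hXU, hXJ, hXs⟩ := hX
  have hsum : w c + ∑ x ∈ X.erase c, w x = 1 := by
    rw [Finset.add_sum_erase X w hc, hXs]
  have hErU : X.erase c ⊆ U := (Finset.erase_subset c X).trans hXU
  refine ⟨fun h => ?_, fun c' hc' h => ?_⟩
  · have h1 := hMS.ge (X.erase c) hErU
      (va2_join hVa1 Cl e X (X.erase c) c hXJ (Finset.Subset.refl _) h)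
    have h2 := hMS.pos c (hXU hc)
    linarith
  · have hsub : X.erase c ⊆ insert c' (X.erase c) := Finset.subset_insert _ _
    have mono : ∀ a b, AR e (X.erase c) a b → AR e (insert c' (X.erase c)) a b := fun a b h' =>
      (hVa1 ι e (X.erase c) a b).2.1 _ hsub h'
    have symm : ∀ a b, AR e (insert c' (X.erase c)) a b → AR e (insert c' (X.erase c)) b a :=
      fun a b h' => (hVa1 ι e _ a b).1 h'
    have step : AR e (insert c' (X.erase c)) (e c').1 (e c').2 :=
      Relation.ReflTransGen.single ⟨c', Finset.mem_insert_self _ _, Or.inl ⟨rfl, rfl⟩⟩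
    have hends : AR e (insert c' (X.erase c)) (e c).1 (e c).2 := by
      rcases h with ⟨h1, h2⟩ | ⟨h1, h2⟩
      · exact (symm _ _ (mono _ _ h1)).trans (step.trans (mono _ _ h2))
      · exact (symm _ _ (mono _ _ h2)).trans ((symm _ _ step).trans (mono _ _ h1))
    have h1 := hMS.ge (insert c' (X.erase c))
      (Finset.insert_subset hc' hErU) (va2_join hVa1 Cl e X _ c hXJ hsub hends)
    have h2 : ∑ x ∈ insert c' (X.erase c), w x ≤ w c' + ∑ x ∈ X.erase c, w x := by
      by_cases hm : c' ∈ X.erase c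
      · rw [Finset.insert_eq_of_mem hm]
        have := hMS.pos c' hc'
        linarith
      · rw [Finset.sum_insert hm]
    linarith

end Pool.Agent.Lib.MP_9f84a9_co
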