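import Pool.Agent.Lib.MP_9f84a9_co.V.StmV

/-!
# MP_9f84a9_co, [GP Va3]
-/

set_option autoImplicit false

namespace Pool.Agent.Lib.MP_9f84a9_co

open Finset Filter Topology

theorem t_Va3 (hVa1 : S_Va1) (hVa2 : S_Va2) : S_Va3 := by
  classical
  intro ι Cl U e w hMS X hMX c' hc'
  have key : ∀ Z : Finset ι, Z ⊆ X.filter (fun c => w c' < w c) →
      AR e (X \ Z) (e c').1 (e c').2 := by
    intro Z
    induction Z using Finset.induction_on with
    | empty =>
      intro _
      rw [Finset.sdiff_empty]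
      exact hMX.2.1 _ (hMS.ends c' hc').1 _ (hMS.ends c' hc').2
    | insert c Z' hcZ ih =>
      intro hZ
      have hZ' : Z' ⊆ X.filter (fun c => w c' < w c) :=
        fun x hx => hZ (Finset.mem_insert_of_mem hx)
      have hY := ih hZ'
      have hc := Finset.mem_filter.1 (hZ (Finset.mem_insert_self c Z'))
      have hsub : (X \ Z').erase c ⊆ X.erase c :=
        Finset.erase_subset_erase c Finset.sdiff_subset
      have heq : X \ insert c Z' = (X \ Z').erase c := by
        ext x
        simp only [Finset.mem_sdiff, Finset.mem_insert, Finset.mem_erase]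
        tauto
      rw [heq]
      rcases (hVa1 ι e (X \ Z') (e c').1 (e c').2).2.2 c hY with h | h | h
      · exact h
      · exfalso
        have h1 := (hVa1 ι e ((X \ Z').erase c) (e c').1 (e c).1).2.1 _ hsub h.1
        have h2 := (hVa1 ι e ((X \ Z').erase c) (e c').2 (e c).2).2.1 _ hsub h.2
        have h3 := (hVa2 ι Cl U e w hMS X hMX c hc.1).2 c' hc' (Or.inl ⟨h1, h2⟩)
        exact absurd hc.2 (not_lt.2 h3)
      · exfalso
        have h1 := (hVa1 ι e ((X \ Z').erase c) (e c').1 (e c).2).2.1 _ hsub h.1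
        have h2 := (hVa1 ι e ((X \ Z').erase c) (e c').2 (e c).1).2.1 _ hsub h.2
        have h3 := (hVa2 ι Cl U e w hMS X hMX c hc.1).2 c' hc' (Or.inr ⟨h1, h2⟩)
        exact absurd hc.2 (not_lt.2 h3)
  have h := key _ (Finset.Subset.refl _)
  refine (hVa1 ι e _ (e c').1 (e c').2).2.1 _ ?_ h
  intro x hx
  rw [Finset.mem_sdiff, Finset.mem_filter] at hx
  rw [Finset.mem_filter]
  refine ⟨hx.1, ?_⟩
  by_contra hlt
  exact hx.2 ⟨hx.1, not_le.1 hlt⟩

end Pool.Agent.Lib.MP_9f84a9_co
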