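import Pool.Agent.Lib.MP_9f84a9_co.V.StmV

/-!
# MP_9f84a9_co, module V, piece Va4: no chain of shorter chords.
-/

set_option autoImplicit false

namespace Pool.Agent.Lib.MP_9f84a9_co

open Finset Filter Topology

open Classical in
/-- [Va4] -/
theorem t_Va4 (hVa1 : S_Va1) (hVa2 : S_Va2) (hVa3 : S_Va3) : S_Va4 := by
  intro ι Cl U e w hMS X hX c hc
  have key : ¬ Relation.ReflTransGen (fun x y => ∃ c' ∈ U, w c' < w c ∧ aj e c' x y)
      (e c).1 (e c).2 := by
    intro h
    refine (hVa2 ι Cl U e w hMS X hX c hc).1 ?_
    have gen : ∀ a b, Relation.ReflTransGen (fun x y => ∃ c' ∈ U, w c' < w c ∧ aj e c' x y) a b →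
        AR e (X.erase c) a b := by
      intro a b hab
      induction hab with
      | refl => exact Relation.ReflTransGen.refl
      | tail _ hstep ih =>
        rename_i x y
        obtain ⟨c', hc'U, hlt, haj⟩ := hstep
        have h3 := hVa3 ι Cl U e w hMS X hX c' hc'U
        have hsub : (X.filter fun c => w c ≤ w c') ⊆ X.erase c := by
          intro d hd
          rw [Finset.mem_filter] at hd
          rw [Finset.mem_erase]
          refine ⟨?_, hd.1⟩
          rintro rfl
          exact absurd hlt (not_lt.mpr hd.2)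
        have h4 : AR e (X.erase c) (e c').1 (e c').2 :=
          (hVa1 ι e _ (e c').1 (e c').2).2.1 _ hsub h3
        have h5 : AR e (X.erase c) (e c').2 (e c').1 :=
          (hVa1 ι e _ (e c').1 (e c').2).1 h4
        rcases haj with ⟨h1, h2⟩ | ⟨h1, h2⟩
        · rw [h1, h2] at h4
          exact ih.trans h4
        · rw [h1, h2] at h5
          exact ih.trans h5
    exact gen _ _ h
  refine ⟨?_, key⟩
  intro heq
  apply key
  rw [heq]

end Pool.Agent.Lib.MP_9f84a9_co
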