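import Pool.Agent.Lib.MP_9f84a9_co.V.StmV

/-!
# MP_9f84a9_co, piece Va5: a minimum spanning set has `card Cl - 1` elements
-/

set_option autoImplicit false

namespace Pool.Agent.Lib.MP_9f84a9_co

open Finset Filter Topology

/-- the graph of the chords of `X` on the classes -/
private def va5_G {ι : Type} (Cl : Finset ℕ) (e : ι → ℕ × ℕ) (X : Finset ι) :
    SimpleGraph {a // a ∈ Cl} where
  Adj a b := a ≠ b ∧ ∃ c ∈ X, aj e c a.1 b.1
  symm := ⟨by
    rintro a b ⟨h, c, hc, h'⟩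
    refine ⟨h.symm, c, hc, ?_⟩
    rcases h' with h' | h'
    · exact Or.inr h'
    · exact Or.inl h'⟩
  loopless := ⟨fun a h => h.1 rfl⟩

private theorem va5_reach {ι : Type} (Cl : Finset ℕ) (e : ι → ℕ × ℕ) (X : Finset ι)
    (he : ∀ c ∈ X, (e c).1 ∈ Cl ∧ (e c).2 ∈ Cl) (a b : ℕ) (ha : a ∈ Cl) (h : AR e X a b) :
    ∃ hb : b ∈ Cl, (va5_G Cl e X).Reachable ⟨a, ha⟩ ⟨b, hb⟩ := by
  unfold AR at h
  induction h with
  | refl => exact ⟨ha, SimpleGraph.Reachable.refl _⟩
  | @tail b c' _ hs ih =>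
    obtain ⟨hb, hR⟩ := ih
    obtain ⟨c, hc, hj⟩ := hs
    have hc' : c' ∈ Cl := by
      rcases hj with ⟨-, h2⟩ | ⟨h1, -⟩
      · rw [← h2]; exact (he c hc).2
      · rw [← h1]; exact (he c hc).1
    refine ⟨hc', ?_⟩
    by_cases hbc : b = c'
    · subst hbc; exact hR
    · refine hR.trans (SimpleGraph.Adj.reachable ?_)
      refine ⟨?_, c, hc, hj⟩
      intro hh
      exact hbc (congrArg Subtype.val hh)

private theorem va5_walk {ι : Type} (Cl : Finset ℕ) (e : ι → ℕ × ℕ) (X₀ : Finset ι)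
    (T : SimpleGraph {a // a ∈ Cl}) (hT : ∀ a b, T.Adj a b → ∃ c ∈ X₀, aj e c a.1 b.1)
    (a b : {a // a ∈ Cl}) (h : T.Walk a b) : AR e X₀ a.1 b.1 := by
  induction h with
  | nil => exact Relation.ReflTransGen.refl
  | @cons u v w' hadj _ ih => exact Relation.ReflTransGen.head (hT _ _ hadj) ih

theorem t_Va5 : S_Va5 := by
  classical
  intro ι Cl U e w hM X hX
  obtain ⟨hXU, hJ, hsum⟩ := hX
  have he : ∀ c ∈ X, (e c).1 ∈ Cl ∧ (e c).2 ∈ Cl := fun c hc => hM.ends c (hXU hc)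
  -- `Cl` is not empty
  have hne : Cl.Nonempty := by
    rw [Finset.nonempty_iff_ne_empty]
    intro h0
    have h1 := hM.ge ∅ (Finset.empty_subset _) (by
      intro a ha
      rw [h0] at ha
      exact absurd ha (Finset.notMem_empty a))
    rw [Finset.sum_empty] at h1
    linarith
  obtain ⟨a0, ha0⟩ := hne
  have hconn : (va5_G Cl e X).Connected := by
    have : Nonempty {a // a ∈ Cl} := ⟨⟨a0, ha0⟩⟩
    refine ⟨?_⟩
    rintro ⟨a, ha⟩ ⟨b, hb⟩
    obtain ⟨_, hR⟩ := va5_reach Cl e X he a b ha (hJ a ha b hb)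
    exact hR
  obtain ⟨T, hTle, hTree⟩ := hconn.exists_isTree_le
  have hcardT := hTree.card_edgeFinset
  -- choose chords
  have hch : ∀ s : Sym2 {a // a ∈ Cl}, ∃ c : ι, s ∈ T.edgeFinset →
      c ∈ X ∧ s((e c).1, (e c).2) = s.map Subtype.val := by
    intro s
    by_cases hs : s ∈ T.edgeFinset
    · induction s using Sym2.ind with
      | _ a b =>
        rw [SimpleGraph.mem_edgeFinset, SimpleGraph.mem_edgeSet] at hs
        obtain ⟨-, c, hc, hj⟩ := hTle hs
        refine ⟨c, fun _ => ⟨hc, ?_⟩⟩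
        rw [Sym2.map_mk]
        rcases hj with ⟨h1, h2⟩ | ⟨h1, h2⟩
        · rw [h1, h2]
        · rw [h1, h2]; exact Sym2.eq_swap
    · by_cases hι : Nonempty ι
      · obtain ⟨c⟩ := hι
        exact ⟨c, fun h => absurd h hs⟩
      · exfalso
        have h1 : ∑ c ∈ X, w c = 0 := by
          apply Finset.sum_eq_zero
          intro c _
          exact absurd ⟨c⟩ hι
        linarith
  choose f hf using hch
  have hinj : Set.InjOn f T.edgeFinset := by
    intro s hs s' hs' hss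
    have h1 := (hf s hs).2
    have h2 := (hf s' hs').2
    rw [hss] at h1
    have h3 : s.map Subtype.val = s'.map (Subtype.val : {a // a ∈ Cl} → ℕ) := h1.symm.trans h2
    exact Sym2.map.injective Subtype.val_injective h3
  set X₀ : Finset ι := T.edgeFinset.image f with hX₀
  have hcard : X₀.card = T.edgeFinset.card := Finset.card_image_of_injOn hinj
  have hsub : X₀ ⊆ X := by
    intro c hc
    rw [hX₀, Finset.mem_image] at hc
    obtain ⟨s, hs, rfl⟩ := hc
    exact (hf s hs).1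
  have hadj : ∀ a b, T.Adj a b → ∃ c ∈ X₀, aj e c a.1 b.1 := by
    intro a b hab
    have hs : s(a, b) ∈ T.edgeFinset := by
      rw [SimpleGraph.mem_edgeFinset, SimpleGraph.mem_edgeSet]; exact hab
    refine ⟨f s(a, b), Finset.mem_image_of_mem _ hs, ?_⟩
    have h1 := (hf _ hs).2
    rw [Sym2.map_mk, Sym2.eq_iff] at h1
    rcases h1 with ⟨h1, h2⟩ | ⟨h1, h2⟩
    · exact Or.inl ⟨h1, h2⟩
    · exact Or.inr ⟨h1, h2⟩
  have hAJ : AJ Cl e X₀ := by
    intro a ha b hb
    obtain ⟨W⟩ := hTree.connected.preconnected ⟨a, ha⟩ ⟨b, hb⟩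
    exact va5_walk Cl e X₀ T hadj _ _ W
  have hge := hM.ge X₀ (hsub.trans hXU) hAJ
  have hEq : X₀ = X := by
    by_contra hneq
    have hss : X₀ ⊂ X := lt_of_le_of_ne hsub hneq
    obtain ⟨c, hcX, hc0⟩ := Finset.exists_of_ssubset hss
    have hlt : ∑ c ∈ X₀, w c < ∑ c ∈ X, w c :=
      Finset.sum_lt_sum_of_subset hsub hcX hc0 (hM.pos c (hXU hcX))
        (fun j hj _ => le_of_lt (hM.pos j (hXU hj)))
    linarith
  rw [← hEq, hcard, hcardT, Fintype.card_coe]

end Pool.Agent.Lib.MP_9f84a9_co
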