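import Pool.Agent.Lib.MP_9f84a9_co.V.StmV

/-!
# MP_9f84a9_co, module V, piece Va6: equal numbers of longest elements.
-/

set_option autoImplicit false

namespace Pool.Agent.Lib.MP_9f84a9_co

open Finset Filter Topology

open Classical in
/-- the exchanged set joins all classes -/
theorem va6_join (hVa1 : S_Va1) (hVa3 : S_Va3) {ι : Type} (Cl : Finset ℕ) (U : Finset ι)
    (e : ι → ℕ × ℕ) (w : ι → ℝ) (hMS : MS Cl U e w) (X X' : Finset ι) (hX : MX Cl U e w X)
    (hX' : MX Cl U e w X') (ℓ : ℝ) (hl : ∀ c ∈ X, w c ≤ ℓ) :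
    AJ Cl e ((X'.filter fun c => w c < ℓ) ∪ (X.filter fun c => w c = ℓ)) := by
  intro a ha b hb
  have h := hX.2.1 a ha b hb
  unfold AR at h
  induction h with
  | refl => exact Relation.ReflTransGen.refl
  | tail hprev hstep ih =>
    rename_i x y
    obtain ⟨c, hcX, haj⟩ := hstep
    have hx : x ∈ Cl := by
      rcases haj with ⟨h1, h2⟩ | ⟨h1, h2⟩
      · rw [← h1]; exact (hMS.ends c (hX.1 hcX)).1
      · rw [← h2]; exact (hMS.ends c (hX.1 hcX)).2
    refine (ih hx).trans ?_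
    rcases lt_or_eq_of_le (hl c hcX) with hlt | heq
    · have h3 := hVa3 ι Cl U e w hMS X' hX' c (hX.1 hcX)
      have hsub : (X'.filter fun d => w d ≤ w c) ⊆
          ((X'.filter fun c => w c < ℓ) ∪ (X.filter fun c => w c = ℓ)) := by
        intro d hd
        rw [Finset.mem_filter] at hd
        rw [Finset.mem_union, Finset.mem_filter]
        exact Or.inl ⟨hd.1, lt_of_le_of_lt hd.2 hlt⟩
      have h4 := (hVa1 ι e _ (e c).1 (e c).2).2.1 _ hsub h3
      have h5 := (hVa1 ι e _ (e c).1 (e c).2).1 h4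
      rcases haj with ⟨h1, h2⟩ | ⟨h1, h2⟩
      · rw [h1, h2] at h4
        exact h4
      · rw [h1, h2] at h5
        exact h5
    · refine Relation.ReflTransGen.single ⟨c, ?_, haj⟩
      rw [Finset.mem_union]
      exact Or.inr (Finset.mem_filter.mpr ⟨hcX, heq⟩)

open Classical in
/-- the sum over the two parts -/
theorem va6_split {ι : Type} (w f : ι → ℝ) (X : Finset ι) (ℓ : ℝ) (hl : ∀ c ∈ X, w c ≤ ℓ) :
    ∑ c ∈ X, f c = ∑ c ∈ X.filter (fun c => w c < ℓ), f c + ∑ c ∈ X.filter (fun c => w c = ℓ), f c := by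
  rw [← Finset.sum_filter_add_sum_filter_not X (fun c => w c < ℓ)]
  congr 1
  refine Finset.sum_congr ?_ (fun _ _ => rfl)
  ext c
  simp only [Finset.mem_filter]
  constructor
  · rintro ⟨h1, h2⟩
    exact ⟨h1, le_antisymm (hl c h1) (not_lt.mp h2)⟩
  · rintro ⟨h1, h2⟩
    exact ⟨h1, not_lt.mpr h2.ge⟩

open Classical in
/-- the sum over the exchanged set -/
theorem va6_sum {ι : Type} (w f : ι → ℝ) (X X' : Finset ι) (ℓ : ℝ) :
    ∑ c ∈ ((X'.filter fun c => w c < ℓ) ∪ (X.filter fun c => w c = ℓ)), f c =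
      ∑ c ∈ X'.filter (fun c => w c < ℓ), f c + ∑ c ∈ X.filter (fun c => w c = ℓ), f c := by
  apply Finset.sum_union
  rw [Finset.disjoint_left]
  intro c hc hc'
  rw [Finset.mem_filter] at hc hc'
  exact absurd hc'.2 hc.2.ne

open Classical in
/-- the exchanged set is a set of available chords -/
theorem va6_sub {ι : Type} (w : ι → ℝ) (U X X' : Finset ι) (ℓ : ℝ) (h : X ⊆ U) (h' : X' ⊆ U) :
    ((X'.filter fun c => w c < ℓ) ∪ (X.filter fun c => w c = ℓ)) ⊆ U :=
  Finset.union_subset ((Finset.filter_subset _ _).trans h') ((Finset.filter_subset _ _).trans h)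

open Classical in
/-- half of the comparison of the short parts -/
theorem va6_le (hVa1 : S_Va1) (hVa3 : S_Va3) {ι : Type} (Cl : Finset ℕ) (U : Finset ι)
    (e : ι → ℕ × ℕ) (w : ι → ℝ) (hMS : MS Cl U e w) (X X' : Finset ι) (hX : MX Cl U e w X)
    (hX' : MX Cl U e w X') (ℓ : ℝ) (hl : ∀ c ∈ X, w c ≤ ℓ) :
    ∑ c ∈ X.filter (fun c => w c < ℓ), w c ≤ ∑ c ∈ X'.filter (fun c => w c < ℓ), w c := by
  have h1 := hMS.ge _ (va6_sub w U X X' ℓ hX.1 hX'.1)
    (va6_join hVa1 hVa3 Cl U e w hMS X X' hX hX' ℓ hl)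
  rw [va6_sum] at h1
  have h2 := va6_split w w X ℓ hl
  rw [hX.2.2] at h2
  linarith

open Classical in
/-- [Va6] -/
theorem t_Va6 (hVa1 : S_Va1) (hVa3 : S_Va3) (hVa5 : S_Va5) : S_Va6 := by
  intro ι Cl U e w hMS X X' hX hX' ℓ hl hl'
  have h1 := va6_le hVa1 hVa3 Cl U e w hMS X X' hX hX' ℓ hl
  have h2 := va6_le hVa1 hVa3 Cl U e w hMS X' X hX' hX ℓ hl'
  have h3 := le_antisymm h1 h2
  have hX'' : MX Cl U e w ((X'.filter fun c => w c < ℓ) ∪ (X.filter fun c => w c = ℓ)) := by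
    refine ⟨va6_sub w U X X' ℓ hX.1 hX'.1, va6_join hVa1 hVa3 Cl U e w hMS X X' hX hX' ℓ hl, ?_⟩
    rw [va6_sum, ← h3, ← va6_split w w X ℓ hl, hX.2.2]
  have c1 := hVa5 ι Cl U e w hMS X hX
  have c2 := hVa5 ι Cl U e w hMS X' hX'
  have c3 := hVa5 ι Cl U e w hMS _ hX''
  have d1 := va6_split w (fun _ => (1 : ℝ)) X ℓ hl
  have d2 := va6_split w (fun _ => (1 : ℝ)) X' ℓ hl'
  have d3 := va6_sum w (fun _ => (1 : ℝ)) X X' ℓ
  simp only [Finset.sum_const, nsmul_eq_mul, mul_one] at d1 d2 d3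
  have e1 : (X.filter fun c => w c < ℓ).card + (X.filter fun c => w c = ℓ).card = X.card := by
    exact_mod_cast d1.symm
  have e2 : (X'.filter fun c => w c < ℓ).card + (X'.filter fun c => w c = ℓ).card = X'.card := by
    exact_mod_cast d2.symm
  have e3 : (X'.filter fun c => w c < ℓ).card + (X.filter fun c => w c = ℓ).card =
      ((X'.filter fun c => w c < ℓ) ∪ (X.filter fun c => w c = ℓ)).card := by
    exact_mod_cast d3.symm
  omega

end Pool.Agent.Lib.MP_9f84a9_co
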