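import Pool.Agent.Lib.MP_9f84a9_co.V.StmV

/-!
# MP_9f84a9_co, module V, piece Vd: the distance of an admissible piece.
-/

set_option autoImplicit false

namespace Pool.Agent.Lib.MP_9f84a9_co

open Finset Filter Topology

/-- [Vd] -/
theorem t_Vd (hA1 : S_A1) (hA2 : S_A2) (hA3 : S_A3) (hB4 : S_B4) (hB5 : S_B5) : S_Vd := by
  intro N D p hok
  obtain ⟨a1, -, -, -, a5, a6, -⟩ := hA1 N
  obtain ⟨-, b2, -⟩ := hB4 N D hok
  have hcn : Cn D.K := hB5 N D hok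
  obtain ⟨c1, c2, c3, c4, -⟩ := hA2 N D.K (ce p) (a1 p) hcn
  refine ⟨hcn, ?_, c1, c2, c3, c4, ?_, a6 p⟩
  · intro v hv
    obtain ⟨f, hf, hvf⟩ := b2 v hv
    exact (a5 D.K f v hf hvf).1
  · exact hA3 N D.K (ce p) (ce p) hcn (fun x _ => le_of_eq ((a1 p).self x))
      (fun x y z _ _ _ => (a1 p).tri x y z) (fun x y _ => le_refl _)

end Pool.Agent.Lib.MP_9f84a9_co
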