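import Pool.Agent.Lib.MP_9f84a9_co.V.StmV

/-!
# MP_9f84a9_co, module V: piece Vl1
-/

set_option autoImplicit false

namespace Pool.Agent.Lib.MP_9f84a9_co

open Finset Filter Topology

private theorem vl1_uni (u w : E) (s : ℝ) (hu : u ≠ 0) :
    inner ℝ (u + s • w) (uni u) = ‖u‖ + s * inner ℝ w (uni u) := by
  have hn : ‖u‖ ≠ 0 := norm_ne_zero_iff.2 hu
  rw [inner_add_left, real_inner_smul_left]
  congr 1
  unfold uni
  rw [real_inner_smul_right, real_inner_self_eq_norm_sq]
  field_simp

theorem t_Vl1 : S_Vl1 := by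
  constructor
  · intro u w s
    by_cases hu : u = 0
    · subst hu
      have h0 : uni (0 : E) = 0 := by unfold uni; simp
      rw [h0, inner_zero_right, norm_zero, mul_zero, add_zero]
      exact norm_nonneg _
    · have hn : ‖u‖ ≠ 0 := norm_ne_zero_iff.2 hu
      have h1 := real_inner_le_norm (u + s • w) (uni u)
      have h2 : ‖uni u‖ = 1 := by
        unfold uni
        rw [norm_smul, norm_inv, norm_norm, inv_mul_cancel₀ hn]
      rw [h2, mul_one, vl1_uni u w s hu] at h1
      exact h1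
  · intro u w hu hw
    have hn : ‖u‖ ≠ 0 := norm_ne_zero_iff.2 hu
    have hw' : w 0 * u 1 = w 1 * u 0 := by
      have h : inner ℝ w (rot u) = -(u 1) * w 0 + u 0 * w 1 := by
        rw [PiLp.inner_apply, Fin.sum_univ_two]
        simp [rot]
      rw [h] at hw
      linear_combination -hw
    have hsq : ‖u‖ ^ 2 = u 0 ^ 2 + u 1 ^ 2 := by
      rw [EuclideanSpace.norm_sq_eq, Fin.sum_univ_two]
      simp
    have hin : inner ℝ w u = w 0 * u 0 + w 1 * u 1 := by
      rw [PiLp.inner_apply, Fin.sum_univ_two]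
      simp [mul_comm]
    obtain ⟨a, ha⟩ : ∃ a : ℝ, a = inner ℝ w u / ‖u‖ ^ 2 := ⟨_, rfl⟩
    have ha' : a * (u 0 ^ 2 + u 1 ^ 2) = w 0 * u 0 + w 1 * u 1 := by
      rw [ha, ← hsq, ← hin]
      field_simp
    have hpos : u 0 ^ 2 + u 1 ^ 2 ≠ 0 := by rw [← hsq]; exact pow_ne_zero 2 hn
    have hwa : w = a • u := by
      ext i
      fin_cases i
      · show w 0 = a * u 0
        have : (u 0 ^ 2 + u 1 ^ 2) * (w 0 - a * u 0) = 0 := by
          linear_combination (u 1) * hw' - (u 0) * ha'
        exact sub_eq_zero.1 ((mul_eq_zero.1 this).resolve_left hpos)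
      · show w 1 = a * u 1
        have : (u 0 ^ 2 + u 1 ^ 2) * (w 1 - a * u 1) = 0 := by
          linear_combination (-u 0) * hw' - (u 1) * ha'
        exact sub_eq_zero.1 ((mul_eq_zero.1 this).resolve_left hpos)
    have ht : Tendsto (fun s : ℝ => 1 + s * a) (𝓝[>] 0) (𝓝 1) := by
      have h : Tendsto (fun s : ℝ => 1 + s * a) (𝓝 0) (𝓝 (1 + 0 * a)) :=
        (continuous_const.add (continuous_id.mul continuous_const)).tendsto 0
      rw [zero_mul, add_zero] at h
      exact h.mono_left nhdsWithin_le_nhds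
    have hev : ∀ᶠ s in 𝓝[>] (0 : ℝ), 0 < 1 + s * a := ht.eventually (lt_mem_nhds one_pos)
    filter_upwards [hev] with s hs
    have h1 : u + s • w = (1 + s * a) • u := by
      rw [hwa, smul_smul, add_smul, one_smul]
    have h2 : inner ℝ w (uni u) = a * ‖u‖ := by
      unfold uni
      rw [hwa, real_inner_smul_left, real_inner_smul_right, real_inner_self_eq_norm_sq]
      field_simp
    rw [h1, norm_smul, Real.norm_eq_abs, abs_of_pos hs, h2]
    ring

end Pool.Agent.Lib.MP_9f84a9_co
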