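import Pool.Agent.Lib.MP_9f84a9_co.V.StmV

/-!
# MP_9f84a9_co, piece [GP Vl2]: positivity of a disc is an open condition
-/

set_option autoImplicit false

namespace Pool.Agent.Lib.MP_9f84a9_co

open Finset Filter Topology

private theorem vl2_cont {N : ℕ} (a b w : Fin N) :
    Continuous (fun p : Fin N → E => ar (p a) (p b) (p w)) := by
  unfold ar
  fun_prop

private theorem vl2_pt {N : ℕ} {p : Fin N → E} {ι : Type} {l : Filter ι}
    {pf : ι → Fin N → E} (h : Tendsto pf l (𝓝 p)) (T : PT N) :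
    ∀ a b : Fin N, T.SPos p a b → ∀ᶠ i in l, T.SPos (pf i) a b := by
  induction T with
  | nil => intro a b _; exact Eventually.of_forall fun _ => trivial
  | node w L R ihl ihr =>
    intro a b hT
    obtain ⟨h1, h2, h3⟩ := hT
    have h4 : Tendsto (fun i => ar (pf i a) (pf i b) (pf i w)) l
        (𝓝 (ar (p a) (p b) (p w))) := ((vl2_cont a b w).tendsto p).comp h
    filter_upwards [h4.eventually (lt_mem_nhds h1), ihl a w h2, ihr w b h3] with i k1 k2 k3
    exact ⟨k1, k2, k3⟩

private theorem vl2_wp {N : ℕ} {p : Fin N → E} (T : PT N) :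
    ∀ a b : Fin N, T.SPos p a b → T.WPos p a b := by
  induction T with
  | nil => intro a b _; trivial
  | node w L R ihl ihr =>
    intro a b hT
    exact ⟨le_of_lt hT.1, ihl a w hT.2.1, ihr w b hT.2.2⟩

theorem t_Vl2 : S_Vl2 := by
  intro N D p ι l pf hD h
  filter_upwards [vl2_pt h D.P D.a D.b hD.1, vl2_pt h D.R D.b D.a hD.2] with i h1 h2
  exact ⟨⟨h1, h2⟩, ⟨vl2_wp _ _ _ h1, vl2_wp _ _ _ h2⟩⟩

end Pool.Agent.Lib.MP_9f84a9_co
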