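import Pool.Agent.Lib.MP_9f84a9_co.V.StmV

set_option autoImplicit false

namespace Pool.Agent.Lib.MP_9f84a9_co

open Finset Filter Topology

theorem t_Vl4 (hpers : S_pers) : S_Vl4 := by
  intro N k m t y δ hok hsp hinn
  have h : ∀ (j : Fin m) (i : Fin k), ∃ zf : ℝ → Pt N, i ∈ (t j).names →
      Tendsto zf (𝓝[>] (0 : ℝ)) (𝓝 ((y j).2 i)) ∧
      ∀ᶠ s in 𝓝[>] (0 : ℝ), In (t j).D.K (zf s) ∧
        pos (fun v => (y j).1 v + s • δ j (Sum.inl v)) (zf s) =
          pos (y j).1 ((y j).2 i) + s • δ j (Sum.inr i) := by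
    intro j i
    by_cases hi : i ∈ (t j).names
    · have t1 : Tendsto (fun (s : ℝ) => fun v => (y j).1 v + s • δ j (Sum.inl v)) (𝓝[>] (0 : ℝ))
          (𝓝 (y j).1) := by
        have hc : Continuous (fun (s : ℝ) => fun v : Fin N => (y j).1 v + s • δ j (Sum.inl v)) := by
          fun_prop
        have := (hc.tendsto 0).mono_left (nhdsWithin_le_nhds (s := Set.Ioi (0 : ℝ)))
        simpa using this
      have t2 : Tendsto (fun (s : ℝ) => pos (y j).1 ((y j).2 i) + s • δ j (Sum.inr i))
          (𝓝[>] (0 : ℝ)) (𝓝 (pos (y j).1 ((y j).2 i))) := by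
        have hc : Continuous (fun (s : ℝ) => pos (y j).1 ((y j).2 i) + s • δ j (Sum.inr i)) := by
          fun_prop
        have := (hc.tendsto 0).mono_left (nhdsWithin_le_nhds (s := Set.Ioi (0 : ℝ)))
        simpa using this
      obtain ⟨zf, hz1, hz2⟩ := hpers N (t j).D (y j).1 ((y j).2 i) (hok j) (hsp j) (hinn j i hi)
        ℝ (𝓝[>] (0 : ℝ)) _ _ t1 t2
      exact ⟨zf, fun _ => ⟨hz1, hz2⟩⟩
    · exact ⟨fun _ => 0, fun h => absurd h hi⟩
  choose zf hzf using h
  refine ⟨fun s j => (fun v => (y j).1 v + s • δ j (Sum.inl v), fun i => zf j i s), ?_, ?_, ?_, ?_⟩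
  · intro s j v; rfl
  · intro j i hi; exact (hzf j i hi).1
  · rw [eventually_all]
    intro j
    rw [eventually_all]
    intro i
    by_cases hi : i ∈ (t j).names
    · filter_upwards [(hzf j i hi).2] with s hs _
      exact hs.1
    · exact Eventually.of_forall fun s h => absurd h hi
  · rw [eventually_all]
    intro j
    rw [eventually_all]
    intro i
    by_cases hi : i ∈ (t j).names
    · filter_upwards [(hzf j i hi).2] with s hs _
      exact hs.2
    · exact Eventually.of_forall fun s h => absurd h hi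

end Pool.Agent.Lib.MP_9f84a9_co
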