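import Pool.Agent.Lib.MP_9f84a9_co.V.StmV

set_option autoImplicit false

namespace Pool.Agent.Lib.MP_9f84a9_co

open Finset Filter Topology

theorem vl5_core (hVd : S_Vd) (hA7 : S_A7) (hSL : S_SL) (hVl2 : S_Vl2)
    {N : ℕ} (D : Dsc N) (p : Fin N → E) (l : Filter ℝ) (pf : ℝ → Fin N → E)
    (sf tf : ℝ → Pt N) (s t : Pt N) (hok : D.ok) (hsp : D.SPos p) (hpf : Tendsto pf l (𝓝 p))
    (hsf : Tendsto sf l (𝓝 s)) (htf : Tendsto tf l (𝓝 t)) (hs : In D.K s) (ht : In D.K t)
    (hsf' : ∀ᶠ i in l, In D.K (sf i)) (htf' : ∀ᶠ i in l, In D.K (tf i))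
    (hsv : ∀ v, s = vx v → ∀ᶠ i in l, sf i = vx v) (htv : ∀ v, t = vx v → ∀ᶠ i in l, tf i = vx v)
    (hstr : ∀ w ∈ D.vl, vx w ≠ s → vx w ≠ t →
      dK D.K (ce p) s t < dK D.K (ce p) s (vx w) + dK D.K (ce p) (vx w) t) :
    ∀ᶠ i in l, dK D.K (ce (pf i)) (sf i) (tf i) = dist (pos (pf i) (sf i)) (pos (pf i) (tf i)) := by
  obtain ⟨hCn, hvx, -, -, -, -, -, -⟩ := hVd N D p hok
  have key : ∀ᶠ i in l, ∀ w : Fin N, w ∈ D.vl → vx w ≠ sf i → vx w ≠ tf i →
      dK D.K (ce (pf i)) (sf i) (tf i) <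
        dK D.K (ce (pf i)) (sf i) (vx w) + dK D.K (ce (pf i)) (vx w) (tf i) := by
    rw [eventually_all]
    intro w
    by_cases hw : w ∈ D.vl
    · by_cases h1 : vx w = s
      · filter_upwards [hsv w h1.symm] with i hi _ h2
        exact absurd hi.symm h2
      · by_cases h2 : vx w = t
        · filter_upwards [htv w h2.symm] with i hi _ _ h3
          exact absurd hi.symm h3
        · have hin := hvx w hw
          have e1 := hA7 N D.K ℝ l pf p sf tf s t hCn hpf hsf htf hsf' htf' hs ht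
          have e2 := hA7 N D.K ℝ l pf p sf (fun _ => vx w) s (vx w) hCn hpf hsf
            tendsto_const_nhds hsf' (Eventually.of_forall fun _ => hin) hs hin
          have e3 := hA7 N D.K ℝ l pf p (fun _ => vx w) tf (vx w) t hCn hpf
            tendsto_const_nhds htf (Eventually.of_forall fun _ => hin) htf' hin ht
          have e4 := e1.eventually_lt (e2.add e3) (hstr w hw h1 h2)
          filter_upwards [e4] with i hi _ _ _
          exact hi
    · exact Eventually.of_forall fun i h => absurd h hw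
  filter_upwards [key, hVl2 N D p ℝ l pf hsp hpf, hsf', htf'] with i hi1 hi2 hi3 hi4
  rcases hSL N D (pf i) hok hi2.1 (sf i) (tf i) hi3 hi4 with ⟨v, hv, h1, h2, h3⟩ | h
  · exact absurd h3 (not_le.mpr (hi1 v hv h1 h2))
  · exact h

theorem t_Vl5 (hVd : S_Vd) (hA7 : S_A7) (hSL : S_SL) (hsurg : S_surg) (hVl2 : S_Vl2)
    (hX2 : S_X2) : S_Vl5 := by
  intro N k m Cl P R1 t y δ y' hctx hvr
  have hmem : ∀ j, (t j).real (y j) ∈ mk t y := by
    intro j
    rw [mk, List.mem_ofFn]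
    exact ⟨j, rfl⟩
  have hok : ∀ j, ((t j).real (y j)).ok Cl P := fun j => hctx.opt.mem.ok _ (hmem j)
  have hsg : ∀ j, Surg ((t j).real (y j)) := fun j => (hsurg N Cl P R1 _ hctx).1 _ (hmem j)
  have htd : ∀ j, Tendsto (fun s => (y' s j).1) (𝓝[>] (0 : ℝ)) (𝓝 (y j).1) := by
    intro j
    have h1 : (fun s => (y' s j).1) = fun (s : ℝ) => fun v => (y j).1 v + s • δ j (Sum.inl v) := by
      funext s v
      exact hvr.v s j v
    rw [h1]
    have hc : Continuous (fun (s : ℝ) => fun v : Fin N => (y j).1 v + s • δ j (Sum.inl v)) := by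
      fun_prop
    have := (hc.tendsto 0).mono_left (nhdsWithin_le_nhds (s := Set.Ioi (0 : ℝ)))
    simpa using this
  -- ends
  have hend : ∀ j (x : Fin N ⊕ Fin k), (∀ v, x = Sum.inl v → v ∈ ((t j).real (y j)).lv) →
      (∀ i, x = Sum.inr i → i ∈ (t j).names) →
      Tendsto (fun s => ipt (y' s j) x) (𝓝[>] (0 : ℝ)) (𝓝 (ipt (y j) x)) ∧
      In (t j).D.K (ipt (y j) x) ∧ (∀ᶠ s in 𝓝[>] (0 : ℝ), In (t j).D.K (ipt (y' s j) x)) ∧
      (∀ v, ipt (y j) x = vx v → ∀ᶠ s in 𝓝[>] (0 : ℝ), ipt (y' s j) x = vx v) ∧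
      ∀ s, (∀ i, x = Sum.inr i → pos (y' s j).1 ((y' s j).2 i) = ipos (y' s j) x) ∧
        pos (y' s j).1 (ipt (y' s j) x) = ipos (y' s j) x := by
    intro j x hx1 hx2
    obtain ⟨-, hvx, -, -, -, -, -, -⟩ := hVd N (t j).D (y j).1 (hok j).dok
    cases x with
    | inl v =>
      have hv : v ∈ (t j).D.vl := (hok j).lvs v (hx1 v rfl)
      refine ⟨tendsto_const_nhds, hvx v hv, Eventually.of_forall fun _ => hvx v hv, ?_, ?_⟩
      · intro v' hv'
        exact Eventually.of_forall fun _ => hv'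
      · intro s
        refine ⟨fun i hi => by simp at hi, ?_⟩
        obtain ⟨-, -, -, -, -, -, -, hp⟩ := hVd N (t j).D (y' s j).1 (hok j).dok
        exact hp v
    | inr i =>
      have hi := hx2 i rfl
      have hnd : (y j).2 i ∈ ((t j).real (y j)).nd := by
        rw [(hX2 N k (t j) (y j)).2.1, List.mem_map]
        exact ⟨i, hi, rfl⟩
      refine ⟨hvr.td j i hi, (hok j).nods _ hnd, ?_, ?_, ?_⟩
      · filter_upwards [hvr.inK] with s hs
        exact hs j i hi
      · intro v hv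
        exact absurd hv ((hsg j).nv _ hnd v)
      · intro s
        refine ⟨fun i' hi' => ?_, rfl⟩
        cases hi'
        rfl
  have hone : ∀ j, ∀ e ∈ (t j).edges, ∀ᶠ s in 𝓝[>] (0 : ℝ),
      ((t j).real (y' s j)).d (ipt (y' s j) e.1) (ipt (y' s j) e.2) =
        dist (ipos (y' s j) e.1) (ipos (y' s j) e.2) := by
    intro j e he
    obtain ⟨-, -, -, -, -, h6, h7, -⟩ := hX2 N k (t j) (y j)
    obtain ⟨g1, g2, g3, g4⟩ := h7 e he
    obtain ⟨a1, a2, a3, a4, a5⟩ := hend j e.1 g1 g3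
    obtain ⟨b1, b2, b3, b4, b5⟩ := hend j e.2 g2 g4
    obtain ⟨T', hT', ht1, ht2⟩ := h6 e he
    have hstr : ∀ w ∈ (t j).D.vl, vx w ≠ ipt (y j) e.1 → vx w ≠ ipt (y j) e.2 →
        dK (t j).D.K (ce (y j).1) (ipt (y j) e.1) (ipt (y j) e.2) <
          dK (t j).D.K (ce (y j).1) (ipt (y j) e.1) (vx w) +
            dK (t j).D.K (ce (y j).1) (vx w) (ipt (y j) e.2) := by
      intro w hw h1 h2
      have := (hsg j).split T' hT' w hw (by rw [ht1]; exact h1) (by rw [ht2]; exact h2)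
      rw [ht1, ht2] at this
      exact this
    have := vl5_core hVd hA7 hSL hVl2 (t j).D (y j).1 (𝓝[>] (0 : ℝ)) (fun s => (y' s j).1)
      (fun s => ipt (y' s j) e.1) (fun s => ipt (y' s j) e.2) (ipt (y j) e.1) (ipt (y j) e.2)
      (hok j).dok (hsg j).spos (htd j) a1 b1 a2 b2 a3 b3 a4 b4 hstr
    filter_upwards [this] with s hs
    show dK (t j).D.K (ce (y' s j).1) (ipt (y' s j) e.1) (ipt (y' s j) e.2) = _
    rw [hs, (a5 s).2, (b5 s).2]
  rw [eventually_all]
  intro j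
  have : ∀ (L : List ((Fin N ⊕ Fin k) × (Fin N ⊕ Fin k))), (∀ e ∈ L, e ∈ (t j).edges) →
      ∀ᶠ s in 𝓝[>] (0 : ℝ), ∀ e ∈ L,
      ((t j).real (y' s j)).d (ipt (y' s j) e.1) (ipt (y' s j) e.2) =
        dist (ipos (y' s j) e.1) (ipos (y' s j) e.2) := by
    intro L
    induction L with
    | nil => intro _; exact Eventually.of_forall fun s e he => absurd he List.not_mem_nil
    | cons a L ih =>
      intro hL
      filter_upwards [ih (fun e he => hL e (List.mem_cons_of_mem _ he)),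
        hone j a (hL a List.mem_cons_self)] with s h1 h2 e he
      rcases List.mem_cons.mp he with rfl | he
      · exact h2
      · exact h1 e he
  exact this _ (fun e he => he)

end Pool.Agent.Lib.MP_9f84a9_co
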