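import Pool.Agent.Lib.MP_9f84a9_co.V.StmV

set_option autoImplicit false

namespace Pool.Agent.Lib.MP_9f84a9_co

open Finset Filter Topology

theorem t_Vl7 (hVl2 : S_Vl2) (hX2 : S_X2) (hsurg : S_surg) : S_Vl7 := by
  intro N k m Cl P R1 t y δ y' hctx hvr hdiam
  have hmem : ∀ j, (t j).real (y j) ∈ mk t y := by
    intro j
    rw [mk, List.mem_ofFn]
    exact ⟨j, rfl⟩
  have hok : ∀ j, ((t j).real (y j)).ok Cl P := fun j => hctx.opt.mem.ok _ (hmem j)
  have hsg : ∀ j, Surg ((t j).real (y j)) := fun j => (hsurg N Cl P R1 _ hctx).1 _ (hmem j)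
  have htd : ∀ j, Tendsto (fun s => (y' s j).1) (𝓝[>] (0 : ℝ)) (𝓝 (y j).1) := by
    intro j
    have h1 : (fun s => (y' s j).1) = fun (s : ℝ) => fun v => (y j).1 v + s • δ j (Sum.inl v) := by
      funext s v
      exact hvr.v s j v
    rw [h1]
    have hc : Continuous (fun (s : ℝ) => fun v : Fin N => (y j).1 v + s • δ j (Sum.inl v)) := by
      fun_prop
    have := (hc.tendsto 0).mono_left (nhdsWithin_le_nhds (s := Set.Ioi (0 : ℝ)))
    simpa using this
  rw [eventually_all]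
  intro j
  have h1 := hVl2 N (t j).D (y j).1 ℝ (𝓝[>] (0 : ℝ)) (fun s => (y' s j).1) (hsg j).spos (htd j)
  have h2 : ∀ᶠ s in 𝓝[>] (0 : ℝ), ∀ v w : Fin N, v ∈ (t j).D.vl → w ∈ (t j).D.vl →
      dist ((y j).1 v + s • δ j (Sum.inl v)) ((y j).1 w + s • δ j (Sum.inl w)) ≤ P := by
    rw [eventually_all]
    intro v
    rw [eventually_all]
    intro w
    by_cases hv : v ∈ (t j).D.vl
    · by_cases hw : w ∈ (t j).D.vl
      · filter_upwards [hdiam j v hv w hw] with s hs _ _
        exact hs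
      · exact Eventually.of_forall fun s _ h => absurd h hw
    · exact Eventually.of_forall fun s h => absurd h hv
  filter_upwards [h1, h2, hvr.inK] with s hs1 hs2 hs3
  refine ⟨(hok j).dok, hs1.2, (hok j).labs, ?_, ?_, ?_⟩
  · intro z hz
    rw [(hX2 N k (t j) (y' s j)).2.1, List.mem_map] at hz
    obtain ⟨i, hi, rfl⟩ := hz
    exact hs3 j i hi
  · intro v hv
    rw [(hX2 N k (t j) (y' s j)).2.2.1] at hv
    exact (hok j).lvs v (by rw [(hX2 N k (t j) (y j)).2.2.1]; exact hv)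
  · intro v hv w hw
    show dist ((y' s j).1 v) ((y' s j).1 w) ≤ P
    rw [hvr.v, hvr.v]
    exact hs2 v w hv hw

end Pool.Agent.Lib.MP_9f84a9_co
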