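import Pool.Agent.Lib.MP_9f84a9_co.V.StmV

/-!
# MP_9f84a9_co, module V: piece Vl8
-/

set_option autoImplicit false

namespace Pool.Agent.Lib.MP_9f84a9_co

open Finset Filter Topology

theorem t_Vl8 (hmst : S_mst) (hEX : S_EX) (hVd : S_Vd) (hA7 : S_A7) (hVl1 : S_Vl1) : S_Vl8 := by
  classical
  intro N k m Cl P R1 t y δ y' hctx hV hmin
  obtain ⟨q, hq⟩ : ∃ q : Fin m → Piece N, q = fun j => (t j).real (y j) := ⟨_, rfl⟩
  have hctx' : Ctx Cl P R1 (List.ofFn q) := by rw [hq]; exact hctx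
  have hok : ∀ j, (q j).ok Cl P := fun j => hctx'.opt.mem.ok (q j) (List.mem_ofFn.2 ⟨j, rfl⟩)
  have hm := hmst N m Cl P q hok
  have hge : ∀ X ⊆ chs q, JX Cl q X → 1 ≤ ∑ c ∈ X, cl q c := (hm 1).1 hctx'.opt.mem.mst
  have hgam := (hEX N m Cl P R1 q hctx').2
  -- positions converge
  have hp : ∀ j, Tendsto (fun s => (y' s j).1) (𝓝[>] (0 : ℝ)) (𝓝 (y j).1) := by
    intro j
    rw [tendsto_pi_nhds]
    intro v
    have h1 : (fun s => (y' s j).1 v) = fun s => (y j).1 v + s • δ j (Sum.inl v) := by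
      funext s; exact hV.v s j v
    have h2 : Tendsto (fun s : ℝ => (y j).1 v + s • δ j (Sum.inl v)) (𝓝 0)
        (𝓝 ((y j).1 v + (0 : ℝ) • δ j (Sum.inl v))) :=
      (continuous_const.add (continuous_id.smul continuous_const)).tendsto 0
    rw [zero_smul, add_zero] at h2
    rw [h1]
    exact h2.mono_left nhdsWithin_le_nhds
  -- lengths of chords converge
  have hcl : ∀ c ∈ chs q, Tendsto (fun s => cl (fun j => (t j).real (y' s j)) c) (𝓝[>] (0 : ℝ))
      (𝓝 (cl q c)) := by
    intro c hc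
    unfold chs at hc
    rw [mem_filter] at hc
    obtain ⟨h1, h2, _⟩ := hVd N (q c.1).D (q c.1).p (hok c.1).dok
    have e1 : (q c.1).D = (t c.1).D := by rw [hq]; rfl
    have e2 : (q c.1).p = (y c.1).1 := by rw [hq]; rfl
    have h3 := hA7 N (q c.1).D.K ℝ (𝓝[>] (0 : ℝ)) (fun s => (y' s c.1).1) (y c.1).1
      (fun _ => vx c.2.1) (fun _ => vx c.2.2) (vx c.2.1) (vx c.2.2) h1 (hp c.1)
      tendsto_const_nhds tendsto_const_nhds
      (Eventually.of_forall fun _ => h2 _ hc.2.2.1) (Eventually.of_forall fun _ => h2 _ hc.2.2.2)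
      (h2 _ hc.2.2.1) (h2 _ hc.2.2.2)
    unfold cl Piece.d
    rw [e2]
    rw [e1] at h3 ⊢
    exact h3
  -- one chord set
  have hX : ∀ X ∈ (chs q).powerset, ∀ᶠ s in 𝓝[>] (0 : ℝ), JX Cl q X →
      1 ≤ ∑ c ∈ X, cl (fun j => (t j).real (y' s j)) c := by
    intro X hX
    rw [mem_powerset] at hX
    by_cases hJ : JX Cl q X
    · have h1 := hge X hX hJ
      rcases h1.lt_or_eq with h1 | h1
      · have h2 : Tendsto (fun s => ∑ c ∈ X, cl (fun j => (t j).real (y' s j)) c) (𝓝[>] (0 : ℝ))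
            (𝓝 (∑ c ∈ X, cl q c)) := tendsto_finsetSum _ fun c hc => hcl c (hX hc)
        filter_upwards [h2.eventually (lt_mem_nhds h1)] with s hs _
        exact hs.le
      · have hMn : Mn Cl q X := ⟨hX, hJ, h1.symm⟩
        have hmin' := hmin X (by rw [← hq]; exact hMn)
        have hs0 : ∀ᶠ s in 𝓝[>] (0 : ℝ), (0 : ℝ) < s := self_mem_nhdsWithin
        filter_upwards [hs0] with s hs _
        have hterm : ∀ c ∈ X, cl q c + s * inner ℝ (δ c.1 (Sum.inl c.2.1) - δ c.1 (Sum.inl c.2.2))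
            (uni ((y c.1).1 c.2.1 - (y c.1).1 c.2.2)) ≤
            cl (fun j => (t j).real (y' s j)) c := by
          intro c hc
          have hc' := hX hc
          unfold chs at hc'
          rw [mem_filter] at hc'
          have h3 := (hgam c ⟨X, hMn, hc⟩).2.2.2.2.2
          have e2 : (q c.1).p = (y c.1).1 := by rw [hq]; rfl
          rw [e2, dist_eq_norm] at h3
          have h4 := hVl1.1 ((y c.1).1 c.2.1 - (y c.1).1 c.2.2)
            (δ c.1 (Sum.inl c.2.1) - δ c.1 (Sum.inl c.2.2)) s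
          rw [← h3] at h4
          refine h4.trans ?_
          obtain ⟨_, h5, _, _, _, _, h6, h7⟩ := hVd N (t c.1).D (y' s c.1).1 (by
            have := (hok c.1).dok
            rw [hq] at this
            exact this)
          have e1 : (q c.1).D = (t c.1).D := by rw [hq]; rfl
          rw [e1] at hc'
          have h8 := h6 (vx c.2.1) (vx c.2.2) (h5 _ hc'.2.2.1) (h5 _ hc'.2.2.2)
          rw [h7, h7, hV.v, hV.v, dist_eq_norm] at h8
          have h9 : (y c.1).1 c.2.1 - (y c.1).1 c.2.2 +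
              s • (δ c.1 (Sum.inl c.2.1) - δ c.1 (Sum.inl c.2.2)) =
              (y c.1).1 c.2.1 + s • δ c.1 (Sum.inl c.2.1) -
              ((y c.1).1 c.2.2 + s • δ c.1 (Sum.inl c.2.2)) := by
            rw [smul_sub]; abel
          rw [h9]
          exact h8
        have h5 := sum_le_sum hterm
        rw [sum_add_distrib, ← mul_sum, ← h1] at h5
        have h6 := mul_nonneg hs.le hmin'
        linarith
    · exact Eventually.of_forall fun s h => absurd h hJ
  have hall := (Filter.eventually_all_finset (chs q).powerset).2 hX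
  filter_upwards [hall] with s hs hoks
  have hm' := hmst N m Cl P (fun j => (t j).real (y' s j)) hoks
  have e : mk t (y' s) = List.ofFn fun j => (t j).real (y' s j) := rfl
  rw [e, hm']
  intro X hX hJ
  have e3 : chs (fun j => (t j).real (y' s j)) = chs q := by rw [hq]; rfl
  rw [e3] at hX
  refine hs X (mem_powerset.2 hX) ?_
  rw [hq]
  exact hJ

end Pool.Agent.Lib.MP_9f84a9_co
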