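import Pool.Agent.Lib.MP_9f84a9_co.V.StmV

/-!
# MP_9f84a9_co, [Vl9]: assembly of the variation lemma
-/

set_option autoImplicit false

namespace Pool.Agent.Lib.MP_9f84a9_co

open Finset Filter Topology

theorem vl9_hj (hX2 : S_X2) {N k m : ℕ} (t : Fin m → SP N k) (y y' : Fin m → Dat N k) (a b : ℕ)
    (h : HJ (mk t y) a b) : HJ (mk t y') a b := by
  refine Relation.ReflTransGen.mono ?_ _ _ h
  rintro c d ⟨q, hq, h1, h2⟩
  obtain ⟨j, rfl⟩ := (List.mem_ofFn' _ _).1 hq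
  refine ⟨(t j).real (y' j), (List.mem_ofFn' _ _).2 ⟨j, rfl⟩, ?_, ?_⟩
  · rw [(hX2 N k (t j) _).2.2.1] at h1 ⊢
    exact h1
  · rw [(hX2 N k (t j) _).2.2.1] at h2 ⊢
    exact h2

theorem vl9_cnt (hX2 : S_X2) {N k m : ℕ} (t : Fin m → SP N k) (y y' : Fin m → Dat N k) :
    ((mk t y).map fun q => q.lv.length - 1).sum = ((mk t y').map fun q => q.lv.length - 1).sum := by
  unfold mk
  rw [List.map_ofFn, List.sum_ofFn, List.map_ofFn, List.sum_ofFn]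
  refine Finset.sum_congr rfl fun j _ => ?_
  show ((t j).real (y j)).lv.length - 1 = ((t j).real (y' j)).lv.length - 1
  rw [(hX2 N k (t j) (y j)).2.2.1, (hX2 N k (t j) (y' j)).2.2.1]

theorem t_Vl9 : S_Vl9 := by
  intro hsurg hgeo hX2 h4 h6 h7 h8 N k m Cl P R1 t y hnn ctx δ a1 a2 a3
  have hmem : ∀ j, (t j).real (y j) ∈ mk t y := fun j => (List.mem_ofFn' _ _).2 ⟨j, rfl⟩
  have hok : ∀ j, ((t j).real (y j)).ok Cl P := fun j => ctx.opt.mem.ok _ (hmem j)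
  obtain ⟨hS, -⟩ := hsurg N Cl P R1 (mk t y) ctx
  have hG := hgeo N Cl P R1 (mk t y) ctx
  obtain ⟨y', hy'⟩ := h4 N k m t y δ (fun j => (hok j).dok) (fun j => (hS _ (hmem j)).spos) (by
    intro j i hi
    refine (hG _ (hmem j)).inn _ ?_
    rw [(hX2 N k (t j) (y j)).2.1]
    exact List.mem_map.2 ⟨i, hi, rfl⟩)
  refine ⟨y', ?_⟩
  filter_upwards [hy'.ps, h6 N k m Cl P R1 t y δ y' ctx hy' a1, h7 N k m Cl P R1 t y δ y' ctx hy' a3,
    h8 N k m Cl P R1 t y δ y' ctx hy' a2] with s e1 e2 e3 e4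
  refine ⟨fun j v => hy'.v s j v, e1, ⟨?_, ?_, ?_, e4 e3⟩, e2⟩
  · intro q hq
    obtain ⟨j, rfl⟩ := (List.mem_ofFn' _ _).1 hq
    exact e3 j
  · intro a ha b hb
    exact vl9_hj hX2 t y (y' s) a b (ctx.opt.mem.conn a ha b hb)
  · rw [vl9_cnt hX2 t (y' s) y]
    exact ctx.opt.mem.cnt

end Pool.Agent.Lib.MP_9f84a9_co
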