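import Pool.Agent.Lib.MP_9f84a9_co.V.StmV

set_option autoImplicit false

namespace Pool.Agent.Lib.MP_9f84a9_co

open Finset Filter Topology

private theorem vle_pos {N k : ℕ} (y : Dat N k) (x : Fin N ⊕ Fin k) :
    pos y.1 (ipt y x) = ipos y x := by
  cases x with
  | inl v =>
    show pos y.1 (vx v) = y.1 v
    unfold pos vx
    rw [Finset.sum_eq_single v]
    · simp
    · intro w _ hw
      rw [Pi.single_eq_of_ne hw, zero_smul]
    · intro h
      exact absurd (Finset.mem_univ v) h
  | inr i => rfl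

private theorem vle_nil {N : ℕ} {D D' : Dsc N} (h : Dsc.Eqv D D') (hP : D.P = PT.nil)
    (hR : D.R = PT.nil) : D'.P = PT.nil ∧ D'.R = PT.nil := by
  induction h with
  | refl => exact ⟨hP, hR⟩
  | tail _ hm ih =>
    cases hm with
    | sw a b P R => exact ⟨ih.2, ih.1⟩
    | lf a b w l r R => exact absurd ih.1 (by simp)
    | rt a b w l r R => exact absurd ih.1 (by simp)

theorem t_Vle (hgeo : S_geo) (hsurg : S_surg) (hsep0 : S_sep0) (hX2 : S_X2) (_hB1 : S_B1)
    (hB4 : S_B4) : S_Vle := by
  intro N k m Cl P R1 t y hC j e he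
  have hmem : (t j).real (y j) ∈ mk t y := by
    unfold mk
    rw [List.mem_ofFn]
    exact ⟨j, rfl⟩
  have hG := hgeo N Cl P R1 _ hC _ hmem
  obtain ⟨hS, hS0, -, -⟩ := hsurg N Cl P R1 _ hC
  have hSq := hS _ hmem
  obtain ⟨-, h2, -, -, -, h6, h7, -⟩ := hX2 N k (t j) (y j)
  obtain ⟨T', hT, hT1, hT2⟩ := h6 e he
  have hstr := hG.str T' hT
  have hp1 : pos ((t j).real (y j)).p T'.1.top = ipos (y j) e.1 := by
    rw [hT1]; exact vle_pos (y j) e.1
  have hp2 : pos ((t j).real (y j)).p T'.2.top = ipos (y j) e.2 := by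
    rw [hT2]; exact vle_pos (y j) e.2
  rw [hp1, hp2, hT1, hT2] at hstr
  refine ⟨hstr, ?_⟩
  intro heq
  rw [heq, dist_self] at hstr
  have hne := hG.pos T' hT
  rw [hT1, hT2] at hne
  have hok := hC.opt.mem.ok _ hmem
  have hlv : ∀ v ∈ ((t j).real (y j)).lv, In ((t j).real (y j)).D.K (vx v) := by
    intro v hv
    obtain ⟨-, hb, -⟩ := hB4 N _ hok.dok
    obtain ⟨f, hf, hvf⟩ := hb v (hok.lvs v hv)
    refine ⟨fun w => ?_, ?_, f, hf, ?_⟩
    · unfold vx
      by_cases hw : w = v
      · subst hw; simp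
      · rw [Pi.single_eq_of_ne hw]
    · unfold vx
      simp
    · intro w hw
      have : w ≠ v := fun h => hw (h ▸ hvf)
      unfold vx
      rw [Pi.single_eq_of_ne this]
  have hnm : ∀ i ∈ (t j).names, In ((t j).real (y j)).D.K ((y j).2 i) := by
    intro i hi
    apply hok.nods
    rw [h2]
    exact List.mem_map_of_mem hi
  obtain ⟨k1, k2, k3, k4⟩ := h7 e he
  have hK1 : In ((t j).real (y j)).D.K (ipt (y j) e.1) := by
    cases hx : e.1 with
    | inl v => exact hlv v (k1 v hx)
    | inr i => exact hnm i (k3 i hx)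
  have hK2 : In ((t j).real (y j)).D.K (ipt (y j) e.2) := by
    cases hx : e.2 with
    | inl v => exact hlv v (k2 v hx)
    | inr i => exact hnm i (k4 i hx)
  rcases hsep0 N ((t j).real (y j)).D ((t j).real (y j)).p hok.dok hSq.spos with h | ⟨hP, hR⟩
  · exact hne (h _ _ hK1 hK2 hstr)
  · have hno : ∀ i, i ∉ (t j).names := by
      intro i hi
      have hin : Inn ((t j).real (y j)).D ((y j).2 i) := by
        apply hG.inn
        rw [h2]
        exact List.mem_map_of_mem hi
      rcases hin.2 with ⟨f, hf, hf3, -⟩ | ⟨D', hD', hDP, -⟩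
      · unfold Dsc.K at hf
        rw [if_pos ⟨hP, hR⟩, Finset.mem_singleton] at hf
        rw [hf] at hf3
        have := Finset.card_le_two (a := ((t j).real (y j)).D.a) (b := ((t j).real (y j)).D.b)
        omega
      · exact hDP (vle_nil hD' hP hR).1
    cases hx : e.1 with
    | inr i => exact hno i (k3 i hx)
    | inl u =>
      cases hz : e.2 with
      | inr i => exact hno i (k4 i hz)
      | inl v =>
        rw [hx, hz] at hne hstr
        have hu := k1 u hx
        have hv := k2 v hz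
        have hl := hS0 _ hmem u (hok.lvs u hu) v (hok.lvs v hv) hstr
        have huv : u = v := List.inj_on_of_nodup_map hSq.cls hu hv hl
        exact hne (by rw [huv])

end Pool.Agent.Lib.MP_9f84a9_co
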