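import Pool.Agent.Lib.MP_9f84a9_co.V.StmV

/-!
# MP_9f84a9_co, [Vm1]: `MSTge` gives the lower bound for chord sets
-/

set_option autoImplicit false

namespace Pool.Agent.Lib.MP_9f84a9_co

open Finset Filter Topology

theorem t_Vm1 : S_Vm1 := by
  classical
  intro N m Cl q M hM X hX hJ
  let f : Fin m × Fin N × Fin N → ℕ × ℕ × ℝ :=
    fun c => ((q c.1).lab c.2.1, (q c.1).lab c.2.2, cl q c)
  have h := hM (X.toList.map f) ?_ ?_
  · have h2 : ((X.toList.map f).map (·.2.2)).sum = ∑ c ∈ X, cl q c := by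
      rw [List.map_map, ← Finset.sum_map_toList]
      rfl
    rw [h2] at h
    exact h
  · intro t ht
    obtain ⟨c, hc, rfl⟩ := List.mem_map.mp ht
    have hc' : c ∈ X := Finset.mem_toList.mp hc
    have hc2 := hX hc'
    unfold chs at hc2
    rw [Finset.mem_filter] at hc2
    refine ⟨q c.1, ?_, c.2.1, hc2.2.2.1, c.2.2, hc2.2.2.2, rfl, rfl, le_refl _⟩
    rw [List.mem_ofFn]
    exact ⟨c.1, rfl⟩
  · intro a ha b hb
    refine Relation.ReflTransGen.mono ?_ _ _ (hJ a ha b hb)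
    rintro x y ⟨c, hc, hxy⟩
    refine ⟨cl q c, ?_⟩
    have hmem : f c ∈ X.toList.map f := List.mem_map.mpr ⟨c, Finset.mem_toList.mpr hc, rfl⟩
    rcases hxy with ⟨h1, h2⟩ | ⟨h1, h2⟩
    · left
      rw [← h1, ← h2]
      exact hmem
    · right
      rw [← h1, ← h2]
      exact hmem

end Pool.Agent.Lib.MP_9f84a9_co
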