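import Pool.Agent.Lib.MP_9f84a9_co.V.StmV

/-!
# MP_9f84a9_co, [GP Vm2]
-/

set_option autoImplicit false

namespace Pool.Agent.Lib.MP_9f84a9_co

open Finset Filter Topology

theorem t_Vm2 (hVd : S_Vd) : S_Vm2 := by
  classical
  intro N m q hok l
  have hnn : ∀ c, 0 ≤ cl q c := fun c =>
    (hVd N (q c.1).D (q c.1).p (hok c.1)).2.2.1 _ _
  induction l with
  | nil =>
    intro _
    refine ⟨∅, Finset.empty_subset _, by simp, ?_⟩
    intro x y r h
    simp at h
  | cons t l ih =>
    intro hl
    obtain ⟨X', hX', hsum', hch'⟩ := ih (fun t ht => hl t (List.mem_cons_of_mem _ ht))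
    obtain ⟨a, b, r⟩ := t
    obtain ⟨q0, hq0, v, hv, w, hw, hva, hwb, hd⟩ := hl (a, b, r) List.mem_cons_self
    obtain ⟨j, rfl⟩ := (List.mem_ofFn' q q0).1 hq0
    have hD := hVd N (q j).D (q j).p (hok j)
    have hr : 0 ≤ r := le_trans (hD.2.2.1 _ _) hd
    have hS : (((a, b, r) :: l).map (·.2.2)).sum = r + (l.map (·.2.2)).sum := by
      simp
    -- the general step
    have step : ∀ c ∈ chs q, cj q c a b → cl q c ≤ r →
        ∃ X ⊆ chs q, ∑ c ∈ X, cl q c ≤ (((a, b, r) :: l).map (·.2.2)).sum ∧
          ∀ x y r', (x, y, r') ∈ ((a, b, r) :: l) →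
            Relation.ReflTransGen (fun x y => ∃ c ∈ X, cj q c x y) x y := by
      intro c hc hcj hcr
      refine ⟨insert c X', Finset.insert_subset hc hX', ?_, ?_⟩
      · rw [hS]
        by_cases hcX : c ∈ X'
        · rw [Finset.insert_eq_of_mem hcX]
          linarith
        · rw [Finset.sum_insert hcX]
          linarith
      · intro x y r' hxy
        rcases List.mem_cons.1 hxy with h | h
        · have hx : x = a := congrArg Prod.fst h
          have hy : y = b := congrArg (fun p => p.2.1) h
          rw [hx, hy]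
          exact Relation.ReflTransGen.single ⟨c, Finset.mem_insert_self _ _, hcj⟩
        · refine Relation.ReflTransGen.mono ?_ _ _ (hch' x y r' h)
          rintro x y ⟨c', hc', h'⟩
          exact ⟨c', Finset.mem_insert_of_mem hc', h'⟩
    rcases lt_trichotomy v w with hvw | hvw | hvw
    · refine step (j, v, w) ?_ (Or.inl ⟨hva, hwb⟩) hd
      unfold chs
      rw [Finset.mem_filter]
      exact ⟨Finset.mem_univ _, hvw, hv, hw⟩
    · refine ⟨X', hX', ?_, ?_⟩
      · rw [hS]
        linarith
      · intro x y r' hxy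
        rcases List.mem_cons.1 hxy with h | h
        · have hx : x = a := congrArg Prod.fst h
          have hy : y = b := congrArg (fun p => p.2.1) h
          have hab : a = b := by
            rw [← hvw] at hwb
            exact hva.symm.trans hwb
          rw [hx, hy, hab]
        · exact hch' x y r' h
    · refine step (j, w, v) ?_ (Or.inr ⟨hwb, hva⟩) ?_
      · unfold chs
        rw [Finset.mem_filter]
        exact ⟨Finset.mem_univ _, hvw, hw, hv⟩
      · have h1 := hD.2.2.2.2.1 (vx v) (vx w)
        have h2 : cl q (j, w, v) = dK (q j).D.K (ce (q j).p) (vx w) (vx v) := rfl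
        rw [h2, ← h1]
        exact hd

end Pool.Agent.Lib.MP_9f84a9_co
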