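import Pool.Agent.Lib.MP_9f84a9_co.V.StmV

set_option autoImplicit false

namespace Pool.Agent.Lib.MP_9f84a9_co

open Finset Filter Topology

private theorem vx1_leaf {N : ℕ} (T : Net N) : ∃ v, v ∈ T.leaves := by
  induction T with
  | leaf v => exact ⟨v, by simp [Net.leaves]⟩
  | node z l r ihl ihr =>
    obtain ⟨v, hv⟩ := ihl
    exact ⟨v, by simp [Net.leaves, hv]⟩

theorem t_Vx1 (hVd : S_Vd) (hsurg : S_surg) (hsep0 : S_sep0) : S_Vx1 := by
  intro N m Cl P R1 q hC c hc
  obtain ⟨j, v, w⟩ := c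
  have hc' : v < w ∧ v ∈ (q j).D.vl ∧ w ∈ (q j).D.vl := by
    simpa [chs] using hc
  obtain ⟨hvw, hv, hw⟩ := hc'
  have hq : q j ∈ List.ofFn q := (List.mem_ofFn' q _).2 ⟨j, rfl⟩
  obtain ⟨hS, hlab, _, _⟩ := hsurg N Cl P R1 _ hC
  have hok := hC.opt.mem.ok _ hq
  have hs := hS _ hq
  obtain ⟨_, hin, hnn, _⟩ := hVd N (q j).D (q j).p hok.dok
  rcases (hnn (vx v) (vx w)).lt_or_eq with h | h
  · exact h
  exfalso
  have h0 : (q j).d (vx v) (vx w) = 0 := h.symm
  have hl := hlab _ hq v hv w hw h0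
  rcases hsep0 N (q j).D (q j).p hok.dok hs.spos with h1 | ⟨hP, hR⟩
  · have h2 := h1 (vx v) (vx w) (hin v hv) (hin w hw) h0
    have h3 := congrFun h2 v
    simp only [vx, Pi.single_eq_same] at h3
    rw [Pi.single_eq_of_ne hvw.ne] at h3
    exact one_ne_zero h3
  · have hvl : (q j).D.vl = [(q j).D.a, (q j).D.b] := by
      simp [Dsc.vl, hP, hR, PT.vs]
    obtain ⟨x, hx⟩ := vx1_leaf (q j).T.1
    obtain ⟨y, hy⟩ := vx1_leaf (q j).T.2
    have hxl : x ∈ (q j).D.vl := hok.lvs x (by simp [Piece.lv, hx])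
    have hyl : y ∈ (q j).D.vl := hok.lvs y (by simp [Piece.lv, hy])
    have hcls := hs.cls
    rw [Piece.lv, List.map_append, List.nodup_append] at hcls
    have hne : (q j).lab x ≠ (q j).lab y :=
      hcls.2.2 _ (List.mem_map_of_mem hx) _ (List.mem_map_of_mem hy)
    rw [hvl] at hv hw hxl hyl
    simp only [List.mem_cons, List.not_mem_nil, or_false] at hv hw hxl hyl
    have hvw' := hvw.ne
    rcases hv with hv | hv <;> rcases hw with hw | hw
    · exact hvw' (hv.trans hw.symm)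
    · rcases hxl with hx' | hx' <;> rcases hyl with hy' | hy'
      · exact hne (by rw [hx', hy'])
      · exact hne (by rw [hx', hy', ← hv, ← hw, hl])
      · exact hne (by rw [hx', hy', ← hv, ← hw, hl])
      · exact hne (by rw [hx', hy'])
    · rcases hxl with hx' | hx' <;> rcases hyl with hy' | hy'
      · exact hne (by rw [hx', hy'])
      · exact hne (by rw [hx', hy', ← hv, ← hw, hl])
      · exact hne (by rw [hx', hy', ← hv, ← hw, hl])
      · exact hne (by rw [hx', hy'])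
    · exact hvw' (hv.trans hw.symm)

end Pool.Agent.Lib.MP_9f84a9_co
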