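import Pool.Agent.Lib.MP_9f84a9_co.V.StmV

/-!
# MP_9f84a9_co, module V: piece Vx2
-/

set_option autoImplicit false

namespace Pool.Agent.Lib.MP_9f84a9_co

open Finset Filter Topology

theorem t_Vx2 (hmst : S_mst) (hsurg : S_surg) (hVx1 : S_Vx1) : S_Vx2 := by
  classical
  intro N m Cl P R1 q hctx
  have hok : ∀ j, (q j).ok Cl P := fun j => hctx.opt.mem.ok (q j) (List.mem_ofFn.2 ⟨j, rfl⟩)
  have hm := hmst N m Cl P q hok
  have hge : ∀ X ⊆ chs q, JX Cl q X → 1 ≤ ∑ c ∈ X, cl q c := (hm 1).1 hctx.opt.mem.mst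
  have hup := (hsurg N Cl P R1 _ hctx).2.2.2
  refine ⟨⟨?_, hVx1 N m Cl P R1 q hctx, hge⟩, fun X => Iff.rfl, ?_⟩
  · intro c _
    exact ⟨(hok c.1).labs _, (hok c.1).labs _⟩
  · have hne : ((chs q).powerset.filter (fun X => JX Cl q X)).Nonempty := by
      by_contra h
      rw [not_nonempty_iff_eq_empty] at h
      have h2 : MSTge Cl (List.ofFn q) 2 := by
        rw [hm 2]
        intro X hX hJ
        have : X ∈ (chs q).powerset.filter (fun X => JX Cl q X) := by
          rw [mem_filter, mem_powerset]; exact ⟨hX, hJ⟩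
        rw [h] at this
        exact absurd this (notMem_empty _)
      have := hup 2 h2
      norm_num at this
    obtain ⟨X, hX, hmin⟩ := exists_min_image _ (fun X => ∑ c ∈ X, cl q c) hne
    rw [mem_filter, mem_powerset] at hX
    have h3 : MSTge Cl (List.ofFn q) (∑ c ∈ X, cl q c) := by
      rw [hm]
      intro Y hY hJ
      exact hmin Y (by rw [mem_filter, mem_powerset]; exact ⟨hY, hJ⟩)
    exact ⟨X, hX.1, hX.2, le_antisymm (hup _ h3) (hge X hX.1 hX.2)⟩

end Pool.Agent.Lib.MP_9f84a9_co
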