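import Pool.Agent.Lib.MP_9f84a9_co.V.StmV

/-!
# MP_9f84a9_co, piece Vx3: `S_EX`
-/

set_option autoImplicit false

namespace Pool.Agent.Lib.MP_9f84a9_co

open Finset Filter Topology

theorem t_Vx3 : S_Vx3 := by
  intro hVd hVx1 hVx2 hVa4 hSL hsurg N m Cl P R1 q hctx
  obtain ⟨hMS, hMn, hex⟩ := hVx2 N m Cl P R1 q hctx
  refine ⟨hex, ?_⟩
  rintro ⟨j, v, w⟩ ⟨X, hX, hcX⟩
  have hpos := hVx1 N m Cl P R1 q hctx
  have hcU : (j, v, w) ∈ chs q := hX.1 hcX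
  have hMX := (hMn X).1 hX
  obtain ⟨hne, hnch⟩ := hVa4 _ Cl (chs q) (en q) (cl q) hMS X hMX (j, v, w) hcX
  have hmem : q j ∈ List.ofFn q := List.mem_ofFn.2 ⟨j, rfl⟩
  have hok : (q j).ok Cl P := hctx.opt.mem.ok _ hmem
  have hsu : Surg (q j) := (hsurg N Cl P R1 _ hctx).1 _ hmem
  obtain ⟨_, d2, _, _, d5, _, _, d8⟩ := hVd N (q j).D (q j).p hok.dok
  have hcm : v < w ∧ v ∈ (q j).D.vl ∧ w ∈ (q j).D.vl := by
    have := hcU
    simpa [chs] using this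
  -- any two distinct vertices of the disc give a chord
  have hch : ∀ a ∈ (q j).D.vl, ∀ b ∈ (q j).D.vl, a ≠ b →
      ∃ c' ∈ chs q, cl q c' = (q j).d (vx a) (vx b) ∧
        aj (en q) c' ((q j).lab a) ((q j).lab b) := by
    intro a ha b hb hab
    rcases lt_or_gt_of_ne hab with h | h
    · exact ⟨(j, a, b), by simp [chs, h, ha, hb], rfl, Or.inl ⟨rfl, rfl⟩⟩
    · exact ⟨(j, b, a), by simp [chs, h, ha, hb], d5 _ _, Or.inr ⟨rfl, rfl⟩⟩
  have hstrict : ∀ u ∈ (q j).D.vl, u ≠ v → u ≠ w →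
      cl q (j, v, w) < (q j).d (vx v) (vx u) + (q j).d (vx u) (vx w) := by
    intro u hu huv huw
    by_contra hlt
    have hle : (q j).d (vx v) (vx u) + (q j).d (vx u) (vx w) ≤ cl q (j, v, w) := not_lt.1 hlt
    obtain ⟨c1, hc1, hl1, ha1⟩ := hch v hcm.2.1 u hu (Ne.symm huv)
    obtain ⟨c2, hc2, hl2, ha2⟩ := hch u hu w hcm.2.2 huw
    have hp1 := hpos c1 hc1
    have hp2 := hpos c2 hc2
    apply hnch
    have s1 : Relation.ReflTransGen
        (fun x y => ∃ c' ∈ chs q, cl q c' < cl q (j, v, w) ∧ aj (en q) c' x y)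
        ((q j).lab v) ((q j).lab u) :=
      Relation.ReflTransGen.single ⟨c1, hc1, by rw [hl1]; linarith, ha1⟩
    exact s1.tail ⟨c2, hc2, by rw [hl2]; linarith, ha2⟩
  have hle1 : cl q (j, v, w) ≤ 1 := by
    rw [← hX.2.2]
    exact Finset.single_le_sum (f := fun c => cl q c) (fun c hc => (hpos c (hX.1 hc)).le) hcX
  refine ⟨hpos _ hcU, hle1, hne, hnch, hstrict, ?_⟩
  rcases hSL N (q j).D (q j).p hok.dok hsu.spos (vx v) (vx w) (d2 v hcm.2.1) (d2 w hcm.2.2) with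
    ⟨u, hu, huv, huw, hle⟩ | heq
  · exfalso
    have h1 := hstrict u hu (fun h => huv (by rw [h])) (fun h => huw (by rw [h]))
    exact absurd hle (not_le.2 h1)
  · rw [d8, d8] at heq
    exact heq

end Pool.Agent.Lib.MP_9f84a9_co
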