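import Pool.Agent.Lib.MP_9f84a9_co.V.StmV

/-!
# MP_9f84a9_co, piece Vx4: minimum spanning sets of the extremal configuration
-/

set_option autoImplicit false

namespace Pool.Agent.Lib.MP_9f84a9_co

open Finset Filter Topology

theorem t_Vx4 : S_Vx4 := by
  intro hx2 ha5 ha6 N m Cl P R1 q hctx
  obtain ⟨hMS, hMn, -⟩ := hx2 N m Cl P R1 q hctx
  refine ⟨fun X hX => ha5 _ Cl (chs q) (en q) (cl q) hMS X ((hMn X).1 hX), ?_⟩
  intro ℓ hℓ X X' hX hX'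
  have h := ha6 _ Cl (chs q) (en q) (cl q) hMS X X' ((hMn X).1 hX) ((hMn X').1 hX') ℓ
    (fun c hc => hℓ c ⟨X, hX, hc⟩) (fun c hc => hℓ c ⟨X', hX', hc⟩)
  convert h

end Pool.Agent.Lib.MP_9f84a9_co
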