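import Pool.Agent.Lib.MP_9f84a9_co.V.Va1
import Pool.Agent.Lib.MP_9f84a9_co.V.Va2
import Pool.Agent.Lib.MP_9f84a9_co.V.Va3
import Pool.Agent.Lib.MP_9f84a9_co.V.Va4
import Pool.Agent.Lib.MP_9f84a9_co.V.Va5
import Pool.Agent.Lib.MP_9f84a9_co.V.Va6
import Pool.Agent.Lib.MP_9f84a9_co.V.Vd
import Pool.Agent.Lib.MP_9f84a9_co.V.Vm1
import Pool.Agent.Lib.MP_9f84a9_co.V.Vm2
import Pool.Agent.Lib.MP_9f84a9_co.V.Vm3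
import Pool.Agent.Lib.MP_9f84a9_co.V.Vx1
import Pool.Agent.Lib.MP_9f84a9_co.V.Vx2
import Pool.Agent.Lib.MP_9f84a9_co.V.Vx3
import Pool.Agent.Lib.MP_9f84a9_co.V.Vx4
import Pool.Agent.Lib.MP_9f84a9_co.V.Vl1
import Pool.Agent.Lib.MP_9f84a9_co.V.Vl2
import Pool.Agent.Lib.MP_9f84a9_co.V.Vl4
import Pool.Agent.Lib.MP_9f84a9_co.V.Vle
import Pool.Agent.Lib.MP_9f84a9_co.V.Vl5
import Pool.Agent.Lib.MP_9f84a9_co.V.Vl6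
import Pool.Agent.Lib.MP_9f84a9_co.V.Vl7
import Pool.Agent.Lib.MP_9f84a9_co.V.Vl8
import Pool.Agent.Lib.MP_9f84a9_co.V.Vl9

/-!
# MP_9f84a9_co, module V: the outputs `S_mst`, `S_EX`, `S_ml`, `S_VL`
-/

set_option autoImplicit false

namespace Pool.Agent.Lib.MP_9f84a9_co

/-- `S_mst` -/
theorem o_mst (hA1 : S_A1) (hA2 : S_A2) (hA3 : S_A3) (hB4 : S_B4) (hB5 : S_B5) : S_mst :=
  t_Vm3 t_Vm1 (t_Vm2 (t_Vd hA1 hA2 hA3 hB4 hB5))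

/-- the facts on the chords of the extremal configuration -/
theorem o_Vx2 (hA1 : S_A1) (hA2 : S_A2) (hA3 : S_A3) (hB4 : S_B4) (hB5 : S_B5) (hsurg : S_surg)
    (hsep0 : S_sep0) : S_Vx2 :=
  t_Vx2 (o_mst hA1 hA2 hA3 hB4 hB5) hsurg (t_Vx1 (t_Vd hA1 hA2 hA3 hB4 hB5) hsurg hsep0)

/-- `S_EX` -/
theorem o_EX (hA1 : S_A1) (hA2 : S_A2) (hA3 : S_A3) (hB4 : S_B4) (hB5 : S_B5) (hsurg : S_surg)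
    (hsep0 : S_sep0) (hSL : S_SL) : S_EX :=
  t_Vx3 (t_Vd hA1 hA2 hA3 hB4 hB5) (t_Vx1 (t_Vd hA1 hA2 hA3 hB4 hB5) hsurg hsep0)
    (o_Vx2 hA1 hA2 hA3 hB4 hB5 hsurg hsep0)
    (t_Va4 t_Va1 (t_Va2 t_Va1) (t_Va3 t_Va1 (t_Va2 t_Va1))) hSL hsurg

/-- `S_ml` -/
theorem o_ml (hA1 : S_A1) (hA2 : S_A2) (hA3 : S_A3) (hB4 : S_B4) (hB5 : S_B5) (hsurg : S_surg)
    (hsep0 : S_sep0) : S_ml :=
  t_Vx4 (o_Vx2 hA1 hA2 hA3 hB4 hB5 hsurg hsep0) t_Va5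
    (t_Va6 t_Va1 (t_Va3 t_Va1 (t_Va2 t_Va1)) t_Va5)

/-- `S_VL` -/
theorem o_VL (hA1 : S_A1) (hA2 : S_A2) (hA3 : S_A3) (hA7 : S_A7) (hB1 : S_B1) (hB4 : S_B4)
    (hB5 : S_B5) (hX2 : S_X2) (hsurg : S_surg) (hsep0 : S_sep0) (hSL : S_SL) (hpers : S_pers)
    (hgeo : S_geo) : S_VL :=
  t_Vl9 hsurg hgeo hX2 (t_Vl4 hpers)
    (t_Vl6 t_Vl1 hX2 (t_Vle hgeo hsurg hsep0 hX2 hB1 hB4)
      (t_Vl5 (t_Vd hA1 hA2 hA3 hB4 hB5) hA7 hSL hsurg t_Vl2 hX2))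
    (t_Vl7 t_Vl2 hX2 hsurg)
    (t_Vl8 (o_mst hA1 hA2 hA3 hB4 hB5) (o_EX hA1 hA2 hA3 hB4 hB5 hsurg hsep0 hSL)
      (t_Vd hA1 hA2 hA3 hB4 hB5) hA7 t_Vl1)

end Pool.Agent.Lib.MP_9f84a9_co
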