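import Pool.Agent.Lib.MP_9f84a9_co.Out
import Pool.Agent.Lib.MP_9f84a9_co.StmA
import Pool.Agent.Lib.MP_9f84a9_co.StmB
import Pool.Agent.Lib.MP_9f84a9_co.StmX

/-!
# MP_9f84a9_co, module V (section 5: minimum spanning sets, variation lemma).
Statements with complete proofs in the docstrings. Outputs: `S_mst`, `S_EX`, `S_ml`, `S_VL` (file `Out.lean`).
-/

set_option autoImplicit false

namespace Pool.Agent.Lib.MP_9f84a9_co

open Finset Filter Topology

/-! ## Part 1: abstract minimum spanning sets -/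

section abstr
variable {ι : Type}

/-- the chord `c`, with ends `e c`, joins `a` and `b` -/
def aj (e : ι → ℕ × ℕ) (c : ι) (a b : ℕ) : Prop :=
  ((e c).1 = a ∧ (e c).2 = b) ∨ ((e c).1 = b ∧ (e c).2 = a)

/-- `a` and `b` are joined by chords of `X` -/
def AR (e : ι → ℕ × ℕ) (X : Finset ι) (a b : ℕ) : Prop :=
  Relation.ReflTransGen (fun x y => ∃ c ∈ X, aj e c x y) a b

/-- the chords of `X` join all classes -/
def AJ (Cl : Finset ℕ) (e : ι → ℕ × ℕ) (X : Finset ι) : Prop := ∀ a ∈ Cl, ∀ b ∈ Cl, AR e X a b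

/-- a finite set `U` of chords with positive weights such that all sets joining all classes have weight `≥ 1` -/
structure MS (Cl : Finset ℕ) (U : Finset ι) (e : ι → ℕ × ℕ) (w : ι → ℝ) : Prop where
  ends : ∀ c ∈ U, (e c).1 ∈ Cl ∧ (e c).2 ∈ Cl
  pos : ∀ c ∈ U, 0 < w c
  ge : ∀ X ⊆ U, AJ Cl e X → 1 ≤ ∑ c ∈ X, w c

/-- `X` joins all classes and has weight `1` -/
def MX (Cl : Finset ℕ) (U : Finset ι) (e : ι → ℕ × ℕ) (w : ι → ℝ) (X : Finset ι) : Prop :=
  X ⊆ U ∧ AJ Cl e X ∧ ∑ c ∈ X, w c = 1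

end abstr

/-- [Va1] Basic facts on `AR`; the effect of erasing one chord.
PROOF. (1) the relation is symmetric (`Relation.ReflTransGen.symmetric`). (2) `Relation.ReflTransGen.mono`. (3) Induct on the chain from `a` to `b`
(`Relation.ReflTransGen.head_induction_on`). `a = b`: first alternative. Let `a – a'` by `c'' ∈ X` and let the claim hold for `a'`. If `c'' ≠ c` then `a`, `a'` are joined by
`X.erase c`, so the alternative of `a'` holds for `a`. If `c'' = c` then `{a, a'} = {(e c).1, (e c).2}`; say `a = (e c).1`, `a' = (e c).2` (the other case is symmetric). If `a'` and `b` are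
joined by `X.erase c`: second alternative. If `a'` is joined to `(e c).1` and `b` to `(e c).2 = a'`: then `a = (e c).1` is joined to `b`. If `a'` is joined to `(e c).2`
and `b` to `(e c).1 = a`: `a` is joined to `b`. -/
def S_Va1 : Prop :=
  ∀ (ι : Type) [DecidableEq ι] (e : ι → ℕ × ℕ) (X : Finset ι) (a b : ℕ),
    (AR e X a b → AR e X b a) ∧
    (∀ X', X ⊆ X' → AR e X a b → AR e X' a b) ∧
    (∀ c, AR e X a b → AR e (X.erase c) a b ∨
      (AR e (X.erase c) a (e c).1 ∧ AR e (X.erase c) b (e c).2) ∨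
      (AR e (X.erase c) a (e c).2 ∧ AR e (X.erase c) b (e c).1))

/-- [Va2] Removal and exchange. (Uses `S_Va1`.)
PROOF. (1) If `(e c).1` and `(e c).2` are joined by `X.erase c` then any `a, b ∈ Cl`, joined by `X`, are joined by `X.erase c` (`S_Va1` (3), symmetry, transitivity), so `AJ Cl e (X.erase c)`,
but `∑ over X.erase c = 1 - w c < 1` (`Finset.sum_erase_eq_sub` or `Finset.add_sum_erase`), contradiction to `ge`. (2) Let `X' = insert c' (X.erase c)`. It joins `(e c).1` and `(e c).2`: through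
`(e c').1`, `c'`, `(e c').2`. As in (1) it joins all classes. So `1 ≤ ∑_{X'} w ≤ w c' + ∑_{X.erase c} w = w c' + 1 - w c` (`Finset.sum_insert_le`-like: if `c' ∈ X.erase c` the sum is even smaller,
`w c' > 0`). -/
def S_Va2 : Prop :=
  ∀ (ι : Type) [DecidableEq ι] (Cl : Finset ℕ) (U : Finset ι) (e : ι → ℕ × ℕ) (w : ι → ℝ),
    MS Cl U e w → ∀ X, MX Cl U e w X → ∀ c ∈ X,
    ¬ AR e (X.erase c) (e c).1 (e c).2 ∧
    ∀ c' ∈ U, ((AR e (X.erase c) (e c').1 (e c).1 ∧ AR e (X.erase c) (e c').2 (e c).2) ∨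
      (AR e (X.erase c) (e c').1 (e c).2 ∧ AR e (X.erase c) (e c').2 (e c).1)) → w c ≤ w c'

open Classical in
/-- [Va3] The ends of any chord `c'` of `U` are joined by the chords of `X` which are not longer. (Uses `S_Va1`, `S_Va2`.)
PROOF. Claim by induction on the finite set `Z` (`Finset.induction_on`): for every `Z ⊆ X.filter (fun c => w c' < w c)` the ends `a = (e c').1`, `b = (e c').2` are joined by `X \ Z`. `Z = ∅`: `MX`
(the ends are in `Cl`). Step: `Z = insert c Z'`, `c ∉ Z'`, `a, b` joined by `Y = X \ Z'`, `c ∈ Y`. `X \ Z = Y.erase c`. By `S_Va1` (3) for `Y`: either they are joined by `Y.erase c`: done; or `a` is joined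
to `(e c).1` and `b` to `(e c).2` by `Y.erase c ⊆ X.erase c`, so by `S_Va2` (2) `w c ≤ w c'`, contradiction; the third alternative in the same way. At the end
`X \ X.filter (w c' < w c) = X.filter (w c ≤ w c')`. -/
def S_Va3 : Prop :=
  ∀ (ι : Type) (Cl : Finset ℕ) (U : Finset ι) (e : ι → ℕ × ℕ) (w : ι → ℝ),
    MS Cl U e w → ∀ X, MX Cl U e w X → ∀ c' ∈ U,
      AR e (X.filter fun c => w c ≤ w c') (e c').1 (e c').2

/-- [Va4] (5.1) The ends of a chord of a minimum spanning set are not joined by shorter chords. (Uses `S_Va1`, `S_Va2`, `S_Va3`.)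
PROOF. The first claim is the second for the empty chain. Suppose there is a chain of shorter chords. Each of them, `c''`, has its ends joined by `X.filter (w · ≤ w c'')` (`S_Va3`), a subset of `X.erase c`
since `w c'' < w c`. So by induction on the chain `(e c).1` and `(e c).2` are joined by `X.erase c`, against `S_Va2` (1). -/
def S_Va4 : Prop :=
  ∀ (ι : Type) (Cl : Finset ℕ) (U : Finset ι) (e : ι → ℕ × ℕ) (w : ι → ℝ),
    MS Cl U e w → ∀ X, MX Cl U e w X → ∀ c ∈ X,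
    (e c).1 ≠ (e c).2 ∧
    ¬ Relation.ReflTransGen (fun x y => ∃ c' ∈ U, w c' < w c ∧ aj e c' x y) (e c).1 (e c).2

/-- [Va5] A minimum spanning set has `card Cl - 1` elements.
PROOF. `Cl` is not empty (otherwise `∅` joins all and `1 ≤ 0`). Let `G` be the simple graph on `{a // a ∈ Cl}` with `a ~ b` iff `a ≠ b` and some `c ∈ X` joins `a` and `b`. It is connected
(a chain from `a` to `b` stays in `Cl` by `ends`; steps with equal ends are trivial). `SimpleGraph.Connected.exists_isTree_le`: a tree `T ≤ G`. Choose for every edge of `T` a chord of `X` with these ends; let `X₀ ⊆ X` be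
the set of these chords. Different edges give different chords, so `card X₀` = number of edges of `T` = `card Cl - 1` (`SimpleGraph.IsTree.card_edgeFinset`). `X₀` joins all classes (`T` is connected), so
`1 ≤ ∑_{X₀} w`. If `X₀ ≠ X` then `∑_{X₀} w < ∑_X w = 1` as all weights are positive (`Finset.sum_lt_sum_of_subset`). So `X = X₀`. -/
def S_Va5 : Prop :=
  ∀ (ι : Type) (Cl : Finset ℕ) (U : Finset ι) (e : ι → ℕ × ℕ) (w : ι → ℝ),
    MS Cl U e w → ∀ X, MX Cl U e w X → X.card + 1 = Cl.card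

open Classical in
/-- [Va6] (5.2) All minimum spanning sets have the same number of longest elements. (Uses `S_Va1`, `S_Va3`, `S_Va5`.)
PROOF. Let `Y = X.filter (w · < ℓ)`, `Z = X.filter (w · = ℓ)`, and `Y'`, `Z'` for `X'`; `X = Y ∪ Z` disjoint by hypothesis. `X'' = Y' ∪ Z` (disjoint) joins all classes: for `c ∈ Y` the ends of `c` are joined by
`X'.filter (w · ≤ w c) ⊆ Y'` (`S_Va3`), so every chain of chords of `X` gives a chain in `X''`. So `1 ≤ ∑_{Y'} w + ∑_Z w`, i.e. `∑_Y w ≤ ∑_{Y'} w` (as `∑_Y w + ∑_Z w = 1`). By symmetry `∑_{Y'} w ≤ ∑_Y w`. Hence `∑_{X''} w = 1`,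
`MX X''`, and `S_Va5` for `X''` and `X`: `card Y' + card Z = card Y + card Z`. So `card Y' = card Y`, and `card Z' = card X' - card Y' = card X - card Y = card Z`. -/
def S_Va6 : Prop :=
  ∀ (ι : Type) (Cl : Finset ℕ) (U : Finset ι) (e : ι → ℕ × ℕ) (w : ι → ℝ),
    MS Cl U e w → ∀ X X', MX Cl U e w X → MX Cl U e w X' → ∀ ℓ : ℝ,
    (∀ c ∈ X, w c ≤ ℓ) → (∀ c ∈ X', w c ≤ ℓ) →
    (X.filter fun c => w c = ℓ).card = (X'.filter fun c => w c = ℓ).card

/-! ## Part 2: chords of configurations -/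

/-- the labels of the ends of a chord -/
def en {N m : ℕ} (q : Fin m → Piece N) (c : Fin m × Fin N × Fin N) : ℕ × ℕ :=
  ((q c.1).lab c.2.1, (q c.1).lab c.2.2)

/-- [Vd] The distance of an admissible piece. (Uses `S_A1`, `S_A2`, `S_A3`, `S_B4`, `S_B5`.)
PROOF. `Cn q.D.K`: `S_B5`. Vertices are points of `K`: `S_B4` (2), `S_A1` (5). The next four: `S_A2` for the cost `ce q.p` (`IsCost` by `S_A1` (1)). `dist (pos x) (pos y) ≤ d x y`: `S_A3` with
`ρ x y = dist (pos q.p x) (pos q.p y) = ce q.p x y`. `pos (vx v) = p v`: `S_A1` (6). -/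
def S_Vd : Prop :=
  ∀ (N : ℕ) (D : Dsc N) (p : Fin N → E), D.ok →
    Cn D.K ∧ (∀ v ∈ D.vl, In D.K (vx v)) ∧ (∀ x y, 0 ≤ dK D.K (ce p) x y) ∧
    (∀ x, In D.K x → dK D.K (ce p) x x = 0) ∧ (∀ x y, dK D.K (ce p) x y = dK D.K (ce p) y x) ∧
    (∀ x y z, In D.K x → In D.K y → In D.K z →
      dK D.K (ce p) x z ≤ dK D.K (ce p) x y + dK D.K (ce p) y z) ∧
    (∀ x y, In D.K x → In D.K y → dist (pos p x) (pos p y) ≤ dK D.K (ce p) x y) ∧
    (∀ v, pos p (vx v) = p v)

/-- [Vm1] `MSTge` gives the lower bound for chord sets.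
PROOF. For `X ⊆ chs q` with `JX Cl q X` apply `MSTge` to the list `X.toList.map fun c => ((q c.1).lab c.2.1, (q c.1).lab c.2.2, cl q c)`. Every element is an available chord: `Ch` with the piece
`q c.1 ∈ List.ofFn q` (`List.mem_ofFn`) and `v = c.2.1`, `w = c.2.2` (in `vl` by `chs`). `Joins`: `Relation.ReflTransGen.mono`: `cj q c x y` means `(x,y) = ` labels or `(y,x) = ` labels. The sum of the list is
`∑ c ∈ X, cl q c` (`Finset.sum_toList` / `Finset.sum_map_toList`). -/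
def S_Vm1 : Prop :=
  ∀ (N m : ℕ) (Cl : Finset ℕ) (q : Fin m → Piece N) (M : ℝ), MSTge Cl (List.ofFn q) M →
    ∀ X ⊆ chs q, JX Cl q X → M ≤ ∑ c ∈ X, cl q c

open Classical in
/-- [Vm2] Every list of available chords contains a chord set. (Uses `S_Vd`.)
PROOF. Induction on the list `l`. `[]`: `X = ∅`. `l = (a,b,r) :: l'`: take `X'` for `l'`. By `Ch` there are `j` (`List.mem_ofFn`) and `v, w ∈ (q j).D.vl` with labels `a`, `b` and `(q j).d (vx v) (vx w) ≤ r`; in particular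
`0 ≤ r` (`S_Vd` (3)). If `v = w` (so `a = b`): `X = X'`; a step between `a` and `b` is trivial (`Relation.ReflTransGen.refl`). If `v < w`: `X = insert (j,v,w) X'`, `∑_X ≤ cl (j,v,w) + ∑_{X'}`; if `w < v`: `X = insert (j,w,v) X'` (`d` is symmetric). -/
def S_Vm2 : Prop :=
  ∀ (N m : ℕ) (q : Fin m → Piece N), (∀ j, (q j).D.ok) →
    ∀ l : List (ℕ × ℕ × ℝ), (∀ t ∈ l, Ch (List.ofFn q) t.1 t.2.1 t.2.2) →
    ∃ X ⊆ chs q, ∑ c ∈ X, cl q c ≤ (l.map (·.2.2)).sum ∧
      ∀ x y r, (x, y, r) ∈ l → Relation.ReflTransGen (fun x y => ∃ c ∈ X, cj q c x y) x y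

/-- [Vm3] `S_mst` from `S_Vm1`, `S_Vm2`.
PROOF. (→) `S_Vm1`. (←) given a list `l` as in `MSTge` take `X` from `S_Vm2`; every step of a `Joins`-chain is an `X`-chain (the relation of `S_Vm2` is symmetric in `x, y`, as `cj` is), so `JX Cl q X`
and `M ≤ ∑_X ≤` the sum of `l`. (`dok` from `ok`.) -/
def S_Vm3 : Prop := S_Vm1 → S_Vm2 → S_mst

/-- [Vx1] In the extremal configuration all chords have positive length. (Uses `S_Vd`, `S_surg`, `S_sep0`.)
PROOF. Let `c = (j,v,w) ∈ chs q`, `v < w` in `vl`. `cl q c ≥ 0`; suppose it is 0. The piece `q j` is in `List.ofFn q`, so `Surg (q j)` and (`S_surg`, second part) `lab v = lab w`. By `S_sep0` either `vx v = vx w`, so `v = w`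
(`Pi.single` injective, evaluate at `v`), contradiction; or `P = R = nil`: then `vl = [a, b]`; the leaves `lv` of `q j` are in `vl` (`ok.lvs`), `lv.length ≥ 2` (each net has a leaf) and the
labels of the leaves are distinct (`Surg.cls`), in particular the leaves are distinct, so `lv` is `[a,b]` or `[b,a]` and `lab a ≠ lab b`; `{v,w} = {a,b}`, contradiction. -/
def S_Vx1 : Prop :=
  ∀ (N m : ℕ) (Cl : Finset ℕ) (P R1 : ℝ) (q : Fin m → Piece N), Ctx Cl P R1 (List.ofFn q) →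
    ∀ c ∈ chs q, 0 < cl q c

/-- [Vx2] The chords of the extremal configuration satisfy the hypotheses of part 1, and there is a minimum spanning set. (Uses `S_mst`, `S_surg`, `S_Vx1`.)
PROOF. `ends`: `ok.labs`. `pos`: `S_Vx1`. `ge`: `S_mst` (→) with `M = 1` (`InD.mst`); `AJ Cl (en q) X` is `JX Cl q X` by definition. Existence: if no `X ⊆ chs q` had `JX` then `MSTge Cl _ 2` by `S_mst` (←), against
`S_surg` (last part). The family of the sums over the finitely many `X ∈ (chs q).powerset` with `JX` has a minimum `M₀` (`Finset.exists_min_image`), `1 ≤ M₀`, and `MSTge Cl _ M₀`, so `M₀ ≤ 1`. -/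
def S_Vx2 : Prop :=
  ∀ (N m : ℕ) (Cl : Finset ℕ) (P R1 : ℝ) (q : Fin m → Piece N), Ctx Cl P R1 (List.ofFn q) →
    MS Cl (chs q) (en q) (cl q) ∧ (∀ X, Mn Cl q X ↔ MX Cl (chs q) (en q) (cl q) X) ∧
      ∃ X, Mn Cl q X

/-- [Vx3] `S_EX`. (Uses `S_Vd`, `S_Vx1`, `S_Vx2`, `S_Va4`, `S_SL`, `S_surg`.)
PROOF. Existence: `S_Vx2`. Let `c = (j,v,w) ∈ X`, `Mn Cl q X`. `0 < cl q c`: `S_Vx1`. `cl q c ≤ 1`: `∑_X = 1`, all terms `≥ 0` (`Finset.single_le_sum`). Labels and no shorter chain: `S_Va4` (with `S_Vx2`).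
Strict inequality: let `u ∈ vl`, `u ≠ v, w` and suppose `d v u + d u w ≤ d v w`. The chords `{v,u}`, `{u,w}` (sorted, `d` symmetric) are in `chs q`, of positive length (`S_Vx1`), so both are shorter than `c`, and they give a chain
`lab v – lab u – lab w`: contradiction. `cl q c = dist`: `S_SL` for `x = vx v`, `y = vx w` (in `K` by `S_Vd`; `SPos` by `Surg.spos`): the first alternative contradicts the strict inequality
(`vx u ≠ vx v` gives `u ≠ v`), the second is the claim (`pos (vx v) = p v`). -/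
def S_Vx3 : Prop := S_Vd → S_Vx1 → S_Vx2 → S_Va4 → S_SL → S_surg → S_EX

/-- [Vx4] `S_ml`. (`S_Va5`, `S_Va6` with `S_Vx2`; `c ∈ X` gives `Gam`; the decidability instances in `filter` may differ: `convert`.) -/
def S_Vx4 : Prop := S_Vx2 → S_Va5 → S_Va6 → S_ml

/-! ## Part 3: the variation lemma -/

/-- [Vl1] Norms along a line.
PROOF. Let `n = ‖u‖`. (1) If `u ≠ 0`: `‖u + s w‖ ≥ ⟪u + s w, uni u⟫ = n + s ⟪w, uni u⟫` (Cauchy-Schwarz, `‖uni u‖ = 1`, `⟪u, uni u⟫ = n`); if `u = 0`: `uni u = 0`. (2) `inner w (rot u) = 0` and `u ≠ 0` give `w = a • u`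
(coordinates: `-w 0 * u 1 + w 1 * u 0 = 0`; `a = ⟪w,u⟫/n²`), so `u + s w = (1 + s a) u`, with `1 + s a > 0` for small `s > 0` (`‖·‖ = (1 + s a) n`), and `⟪w, uni u⟫ = a n`. (3) `rot` is orthogonal to `u`. -/
def S_Vl1 : Prop :=
  (∀ (u w : E) (s : ℝ), ‖u‖ + s * inner ℝ w (uni u) ≤ ‖u + s • w‖) ∧
  (∀ u w : E, u ≠ 0 → inner ℝ w (rot u) = 0 →
    ∀ᶠ s in 𝓝[>] (0 : ℝ), ‖u + s • w‖ = ‖u‖ + s * inner ℝ w (uni u))

/-- [Vl2] Positivity is open. (Induction on `PT` for all base edges; `ar` is continuous: `fun p => ar (p a) (p b) (p w)` is a continuous function of `p`; `Filter.Eventually.and`. `SPos → WPos`: `le_of_lt`.) -/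
def S_Vl2 : Prop :=
  ∀ (N : ℕ) (D : Dsc N) (p : Fin N → E) (ι : Type) (l : Filter ι) (pf : ι → Fin N → E),
    D.SPos p → Tendsto pf l (𝓝 p) → ∀ᶠ i in l, D.SPos (pf i) ∧ D.WPos (pf i)

/-- a variation: vertices `p + s δ`, nodes moving to points with positions `pos + s δ` -/
structure Vr {N k m : ℕ} (t : Fin m → SP N k) (y : Fin m → Dat N k)
    (δ : Fin m → Fin N ⊕ Fin k → E) (y' : ℝ → Fin m → Dat N k) : Prop where
  v : ∀ s j v, (y' s j).1 v = (y j).1 v + s • δ j (Sum.inl v)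
  td : ∀ j, ∀ i ∈ (t j).names, Tendsto (fun s => (y' s j).2 i) (𝓝[>] (0 : ℝ)) (𝓝 ((y j).2 i))
  inK : ∀ᶠ s in 𝓝[>] (0 : ℝ), ∀ j, ∀ i ∈ (t j).names, In (t j).D.K ((y' s j).2 i)
  ps : ∀ᶠ s in 𝓝[>] (0 : ℝ), ∀ j, ∀ i ∈ (t j).names,
    pos (y' s j).1 ((y' s j).2 i) = pos (y j).1 ((y j).2 i) + s • δ j (Sum.inr i)

/-- [Vl4] Variations exist. (Uses `S_pers`.)
PROOF. For `j` and `i ∈ (t j).names` apply `S_pers` to `D = (t j).D`, `p = (y j).1`, `z = (y j).2 i`, `l = 𝓝[>] 0`, `pf s = fun v => p v + s • δ j (inl v)`, `qf s = pos p z + s • δ j (inr i)` (both continuous in `s`, the limit at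
`0` is `p`, `pos p z`): `zf j i`. Put `(y' s j).2 i = zf j i s` if `i ∈ (t j).names`, else `(y j).2 i`. Finite intersections: `Filter.eventually_all`. -/
def S_Vl4 : Prop :=
  ∀ (N k m : ℕ) (t : Fin m → SP N k) (y : Fin m → Dat N k) (δ : Fin m → Fin N ⊕ Fin k → E),
    (∀ j, (t j).D.ok) → (∀ j, (t j).D.SPos (y j).1) →
    (∀ j, ∀ i ∈ (t j).names, Inn (t j).D ((y j).2 i)) → ∃ y', Vr t y δ y'

/-- [Vle] The edges of the extremal trees are straight segments of positive length. (Uses `S_geo`, `S_surg`, `S_sep0`, `S_X2`, `S_B1`.)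
PROOF. `q = (t j).real (y j)` is a member of `mk t y`, so `Surg q`, `Geo q`. Let `T'` be as in `S_X2` (6) for `e`. `Geo.str` gives the first claim (`ipos y x = pos y.1 (ipt y x)` for all `x`: `pos p (vx v) = p v`, `S_A1` (6) or `Finset.sum` with `Pi.single`).
Suppose `ipos e.1 = ipos e.2`; then `q.d T'.1.top T'.2.top = 0`. `Geo.pos`: the tops are different, so by `S_sep0` (ends are points of `K`) we are in the case `P = R = nil`. Then `T` has no nodes: a node would be `Inn`, but `K = {{a,b}}` has no facet with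
three elements and `Dsc.Eqv D D'` implies `D'.P = D'.R = nil` (induction on the moves). So `e.1 = inl u`, `e.2 = inl v` (`S_X2` (7)) are leaves, `u ≠ v`, with distinct labels (`Surg.cls`: `lv.map lab` is `Nodup`), but `d (vx u) (vx v) = 0` gives equal labels
(`S_surg`, second part). Contradiction. -/
def S_Vle : Prop :=
  ∀ (N k m : ℕ) (Cl : Finset ℕ) (P R1 : ℝ) (t : Fin m → SP N k) (y : Fin m → Dat N k),
    Ctx Cl P R1 (mk t y) → ∀ j, ∀ e ∈ (t j).edges,
      ((t j).real (y j)).d (ipt (y j) e.1) (ipt (y j) e.2) = dist (ipos (y j) e.1) (ipos (y j) e.2) ∧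
      ipos (y j) e.1 ≠ ipos (y j) e.2

/-- [Vl5] Straightness of the edges persists (4.2). (Uses `S_Vd`, `S_A7`, `S_SL`, `S_surg`, `S_Vl2`, `S_X2`.)
PROOF. Let `D = (t j).D`, `p_s = (y' s j).1 → p = (y j).1` as `s → 0+` (`Vr.v`), `x_s = ipt (y' s j) e.1`, `z_s = ipt (y' s j) e.2`, with limits `x = ipt (y j) e.1`, `z = ipt (y j) e.2` (constant for vertices, `Vr.td` for nodes; names occurring in an edge are in
`names`, `S_X2` (7)). All are in `K` eventually. Let `T'` be as in `S_X2` (6). `Surg.split`: for every `v ∈ vl` with `vx v ≠ x, z`: `d x z < d x (vx v) + d (vx v) z`; by `S_A7` the same inequality holds for `p_s, x_s, z_s` for small `s`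
(finitely many `v`). For `v ∈ vl` with `vx v = x`: `x` is not a node (`Surg.nv`: nodes of `T` are not vertices; `S_X2` (2)), so `e.1 = inl v'` and `x_s = x = vx v` for all `s`; same for `z`. So for small `s` no `v ∈ vl` with `vx v ≠ x_s`, `vx v ≠ z_s` satisfies
`d_s x_s v + d_s v z_s ≤ d_s x_s z_s`. By `S_SL` for `(D, p_s)` (`SPos` by `S_Vl2`): `d_s x_s z_s = dist (pos p_s x_s) (pos p_s z_s)`, and `pos p_s (ipt y' e.1) = ipos y' e.1`. (The general persistence lemma of module G, [G12], is exactly this argument; if it is on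
main you may use it.) -/
def S_Vl5 : Prop :=
  ∀ (N k m : ℕ) (Cl : Finset ℕ) (P R1 : ℝ) (t : Fin m → SP N k) (y : Fin m → Dat N k)
    (δ : Fin m → Fin N ⊕ Fin k → E) (y' : ℝ → Fin m → Dat N k),
    Ctx Cl P R1 (mk t y) → Vr t y δ y' →
    ∀ᶠ s in 𝓝[>] (0 : ℝ), ∀ j, ∀ e ∈ (t j).edges,
      ((t j).real (y' s j)).d (ipt (y' s j) e.1) (ipt (y' s j) e.2) =
        dist (ipos (y' s j) e.1) (ipos (y' s j) e.2)

/-- [Vl6] The length is linear. (Uses `S_Vl1`, `S_X2`, `S_Vle`, `S_Vl5`.)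
PROOF. `Lc (mk t y) = ∑ j, ((t j).real (y j)).L` (`List.sum_ofFn`), `L = (edges.map (d (ipt e.1) (ipt e.2))).sum` (`S_X2` (1)) `= (edges.map (dist (ipos e.1) (ipos e.2))).sum` (`S_Vle`). For small `s` the same for `y' s` (`S_Vl5`), and
`ipos (y' s j) x = ipos (y j) x + s • δ j x` for the ends of the edges (`Vr.v`, `Vr.ps`, names of edge ends are in `names`), so `dist = ‖u + s • w‖ = ‖u‖ + s * inner w (uni u)` with `u = ipos e.1 - ipos e.2 ≠ 0`, `w = δ e.1 - δ e.2`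
(`S_Vl1` (2)). Sum up. -/
def S_Vl6 : Prop :=
  ∀ (N k m : ℕ) (Cl : Finset ℕ) (P R1 : ℝ) (t : Fin m → SP N k) (y : Fin m → Dat N k)
    (δ : Fin m → Fin N ⊕ Fin k → E) (y' : ℝ → Fin m → Dat N k),
    Ctx Cl P R1 (mk t y) → Vr t y δ y' →
    (∀ j, ∀ e ∈ (t j).edges,
      inner ℝ (δ j e.1 - δ j e.2) (rot (ipos (y j) e.1 - ipos (y j) e.2)) = 0) →
    ∀ᶠ s in 𝓝[>] (0 : ℝ), Lc (mk t (y' s)) = Lc (mk t y) + s * ∑ j, ((t j).edges.map fun e =>
      inner ℝ (δ j e.1 - δ j e.2) (uni (ipos (y j) e.1 - ipos (y j) e.2))).sum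

/-- [Vl7] The pieces stay admissible. (Uses `S_Vl2`, `S_X2`, `S_surg`.)
PROOF. `dok`, `labs`: unchanged. `wpos`: `S_Vl2` (`Surg.spos`; `(y' s j).1 → (y j).1`). `nods`: `S_X2` (2) and `Vr.inK`. `lvs`: `S_X2` (3). `diam`: hypothesis. -/
def S_Vl7 : Prop :=
  ∀ (N k m : ℕ) (Cl : Finset ℕ) (P R1 : ℝ) (t : Fin m → SP N k) (y : Fin m → Dat N k)
    (δ : Fin m → Fin N ⊕ Fin k → E) (y' : ℝ → Fin m → Dat N k),
    Ctx Cl P R1 (mk t y) → Vr t y δ y' →
    (∀ j, ∀ v ∈ (t j).D.vl, ∀ w ∈ (t j).D.vl, ∀ᶠ s in 𝓝[>] (0 : ℝ),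
      dist ((y j).1 v + s • δ j (Sum.inl v)) ((y j).1 w + s • δ j (Sum.inl w)) ≤ P) →
    ∀ᶠ s in 𝓝[>] (0 : ℝ), ∀ j, ((t j).real (y' s j)).ok Cl P

/-- [Vl8] The condition on the minimum spanning sets. (Uses `S_mst`, `S_EX`, `S_Vd`, `S_A7`, `S_Vl1`.)
PROOF. Let `q j = (t j).real (y j)`, `q_s j = (t j).real (y' s j)`; `mk t y = List.ofFn q`. `chs q_s = chs q` and `JX Cl q_s X ↔ JX Cl q X` (the discs and labels are the same; `Iff.rfl`). By `S_mst` (←) it is enough: for small `s`, for all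
(finitely many) `X ⊆ chs q` with `JX Cl q X`: `1 ≤ ∑_X cl q_s c`. By `S_mst` (→) for `q` and `InD.mst`: `1 ≤ ∑_X cl q c`. If it is not `1`: `∑_X cl q_s c → ∑_X cl q c > 1` (`S_A7` with constant points `vx v`, `vx w`). If it is `1`: `Mn Cl q X`, and for every
`c ∈ X`, with `u = p v - p w`, `w' = δ v - δ w`: `cl q_s c ≥ dist (p_s v) (p_s w) = ‖u + s • w'‖ ≥ ‖u‖ + s * inner w' (uni u)` (`S_Vd`, `S_Vl1` (1)), `‖u‖ = cl q c` (`S_EX`); sum up: `≥ 1 + s * (≥ 0)`. -/
def S_Vl8 : Prop :=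
  ∀ (N k m : ℕ) (Cl : Finset ℕ) (P R1 : ℝ) (t : Fin m → SP N k) (y : Fin m → Dat N k)
    (δ : Fin m → Fin N ⊕ Fin k → E) (y' : ℝ → Fin m → Dat N k),
    Ctx Cl P R1 (mk t y) → Vr t y δ y' →
    (∀ X, Mn Cl (fun j => (t j).real (y j)) X →
      0 ≤ ∑ c ∈ X, inner ℝ (δ c.1 (Sum.inl c.2.1) - δ c.1 (Sum.inl c.2.2))
        (uni ((y c.1).1 c.2.1 - (y c.1).1 c.2.2))) →
    ∀ᶠ s in 𝓝[>] (0 : ℝ), (∀ j, ((t j).real (y' s j)).ok Cl P) → MSTge Cl (mk t (y' s)) 1

/-- [Vl9] Assembly of `S_VL`.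
PROOF. `InD` for `mk t (y' s)`: `ok` by `S_Vl7` (members of `List.ofFn`), `conn`, `cnt`: the leaves and labels are those of `mk t y` (`S_X2` (3); `HJ` only depends on the lists `lv.map lab`), `mst` by `S_Vl8`. `Lc` by `S_Vl6`, positions by `Vr`. Nodes are inner
points by `S_geo` (`Geo.inn`, `S_X2` (2)), so `S_Vl4` gives `y'`. -/
def S_Vl9 : Prop :=
  S_surg → S_geo → S_X2 → S_Vl4 → S_Vl6 → S_Vl7 → S_Vl8 → S_VL

end Pool.Agent.Lib.MP_9f84a9_co
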