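import Pool.Agent.Lib.MP_9f84a9_co.V.StmV

/-!
# MP_9f84a9_co, [Va1]: basic facts on chains of chords
-/

set_option autoImplicit false

namespace Pool.Agent.Lib.MP_9f84a9_co

open Finset Filter Topology

private theorem va1_symm {ι : Type} (e : ι → ℕ × ℕ) (c : ι) (a b : ℕ) (h : aj e c a b) :
    aj e c b a := by
  rcases h with ⟨h1, h2⟩ | ⟨h1, h2⟩
  · exact Or.inr ⟨h1, h2⟩
  · exact Or.inl ⟨h1, h2⟩

private theorem va1_ar_symm {ι : Type} (e : ι → ℕ × ℕ) (X : Finset ι) (a b : ℕ)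
    (h : AR e X a b) : AR e X b a := by
  induction h with
  | refl => exact Relation.ReflTransGen.refl
  | tail _ h ih =>
    obtain ⟨c, hc, h⟩ := h
    exact Relation.ReflTransGen.head ⟨c, hc, va1_symm e c _ _ h⟩ ih

private theorem va1_step {ι : Type} [DecidableEq ι] (e : ι → ℕ × ℕ) (X : Finset ι) (c : ι)
    (a a' b : ℕ) (h : ∃ c'' ∈ X, aj e c'' a a')
    (ih : AR e (X.erase c) a' b ∨
      (AR e (X.erase c) a' (e c).1 ∧ AR e (X.erase c) b (e c).2) ∨
      (AR e (X.erase c) a' (e c).2 ∧ AR e (X.erase c) b (e c).1)) :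
    AR e (X.erase c) a b ∨
      (AR e (X.erase c) a (e c).1 ∧ AR e (X.erase c) b (e c).2) ∨
      (AR e (X.erase c) a (e c).2 ∧ AR e (X.erase c) b (e c).1) := by
  obtain ⟨c'', hc, h⟩ := h
  by_cases hcc : c'' = c
  · subst hcc
    rcases h with ⟨h1, h2⟩ | ⟨h1, h2⟩
    · rcases ih with ih | ⟨_, ih⟩ | ⟨_, ih⟩
      · refine Or.inr (Or.inl ⟨?_, ?_⟩)
        · rw [h1]; exact Relation.ReflTransGen.refl
        · rw [h2]; exact va1_ar_symm e _ _ _ ih
      · refine Or.inr (Or.inl ⟨?_, ih⟩)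
        rw [h1]; exact Relation.ReflTransGen.refl
      · left
        rw [← h1]; exact va1_ar_symm e _ _ _ ih
    · rcases ih with ih | ⟨_, ih⟩ | ⟨_, ih⟩
      · refine Or.inr (Or.inr ⟨?_, ?_⟩)
        · rw [h2]; exact Relation.ReflTransGen.refl
        · rw [h1]; exact va1_ar_symm e _ _ _ ih
      · left
        rw [← h2]; exact va1_ar_symm e _ _ _ ih
      · refine Or.inr (Or.inr ⟨?_, ih⟩)
        rw [h2]; exact Relation.ReflTransGen.refl
  · have hs : AR e (X.erase c) a a' :=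
      Relation.ReflTransGen.single ⟨c'', Finset.mem_erase.2 ⟨hcc, hc⟩, h⟩
    rcases ih with ih | ⟨ih, ih2⟩ | ⟨ih, ih2⟩
    · exact Or.inl (hs.trans ih)
    · exact Or.inr (Or.inl ⟨hs.trans ih, ih2⟩)
    · exact Or.inr (Or.inr ⟨hs.trans ih, ih2⟩)

/-- [Va1] Basic facts on `AR`; the effect of erasing one chord. -/
theorem t_Va1 : S_Va1 := by
  intro ι _ e X a b
  refine ⟨va1_ar_symm e X a b, ?_, ?_⟩
  · intro X' hX h
    induction h with
    | refl => exact Relation.ReflTransGen.refl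
    | tail _ h ih =>
      obtain ⟨c, hc, h⟩ := h
      exact Relation.ReflTransGen.tail ih ⟨c, hX hc, h⟩
  · intro c h
    induction h using Relation.ReflTransGen.head_induction_on with
    | refl => exact Or.inl Relation.ReflTransGen.refl
    | head h1 _ ih => exact va1_step e X c _ _ b h1 ih

end Pool.Agent.Lib.MP_9f84a9_co
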