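import Pool.Agent.Lib.MP_9f84a9_co.V.StmV

/-! Piece Vl6. -/

set_option autoImplicit false

namespace Pool.Agent.Lib.MP_9f84a9_co

open Finset Filter Topology

private lemma vl6_Lc {N k m : ℕ} (t : Fin m → SP N k) (y : Fin m → Dat N k) :
    Lc (mk t y) = ∑ j, ((t j).real (y j)).L := by
  unfold Lc mk
  rw [List.map_ofFn, List.sum_ofFn]
  rfl

theorem t_Vl6 (hVl1 : S_Vl1) (hX2 : S_X2) (hVle : S_Vle) (hVl5 : S_Vl5) : S_Vl6 := by
  intro N k m Cl P R1 t y δ y' hctx hvr hed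
  have hle := hVle N k m Cl P R1 t y hctx
  have hstr := hVl5 N k m Cl P R1 t y δ y' hctx hvr
  -- linearity on each edge
  have hlin : ∀ᶠ s in 𝓝[>] (0 : ℝ), ∀ j, ∀ e ∈ {e | e ∈ (t j).edges},
      ‖(ipos (y j) e.1 - ipos (y j) e.2) + s • (δ j e.1 - δ j e.2)‖ =
        ‖ipos (y j) e.1 - ipos (y j) e.2‖ + s * inner ℝ (δ j e.1 - δ j e.2)
          (uni (ipos (y j) e.1 - ipos (y j) e.2)) := by
    rw [Filter.eventually_all]
    intro j
    rw [Filter.eventually_all_finite (List.finite_toSet (t j).edges)]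
    intro e he
    exact hVl1.2 _ _ (sub_ne_zero.2 (hle j e he).2) (hed j e he)
  filter_upwards [hstr, hlin, hvr.ps] with s hs1 hs2 hs3
  have hends : ∀ j, ∀ e ∈ (t j).edges, ipos (y' s j) e.1 = ipos (y j) e.1 + s • δ j e.1 ∧
      ipos (y' s j) e.2 = ipos (y j) e.2 + s • δ j e.2 := by
    intro j e he
    obtain ⟨_, _, h3, h4⟩ := (hX2 N k (t j) (y j)).2.2.2.2.2.2.1 e he
    have key : ∀ x : Fin N ⊕ Fin k, (∀ i, x = Sum.inr i → i ∈ (t j).names) →
        ipos (y' s j) x = ipos (y j) x + s • δ j x := by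
      intro x hx
      rcases x with v | i
      · exact hvr.v s j v
      · exact hs3 j i (hx i rfl)
    exact ⟨key e.1 h3, key e.2 h4⟩
  rw [vl6_Lc, vl6_Lc, mul_sum, ← sum_add_distrib]
  apply sum_congr rfl
  intro j _
  rw [(hX2 N k (t j) (y' s j)).1, (hX2 N k (t j) (y j)).1, ← List.sum_map_mul_left,
    ← List.sum_map_add]
  congr 1
  apply List.map_congr_left
  intro e he
  rw [hs1 j e he, (hle j e he).1, dist_eq_norm, dist_eq_norm, (hends j e he).1,
    (hends j e he).2, ← hs2 j e he]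
  congr 1
  rw [smul_sub]
  abel

end Pool.Agent.Lib.MP_9f84a9_co
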