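import Pool.Agent.Lib.MP_9f84a9_co.V.StmV

/-!
# MP_9f84a9_co, [Vm3]: `S_mst` from `S_Vm1` and `S_Vm2`
-/

set_option autoImplicit false

namespace Pool.Agent.Lib.MP_9f84a9_co

open Finset Filter Topology

theorem vm3_symm {N m : ℕ} (q : Fin m → Piece N) (X : Finset (Fin m × Fin N × Fin N)) (a b : ℕ)
    (h : Relation.ReflTransGen (fun x y => ∃ c ∈ X, cj q c x y) a b) :
    Relation.ReflTransGen (fun x y => ∃ c ∈ X, cj q c x y) b a := by
  induction h with
  | refl => exact Relation.ReflTransGen.refl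
  | tail _ hstep ih =>
    obtain ⟨c, hc, hxy⟩ := hstep
    exact Relation.ReflTransGen.head ⟨c, hc, hxy.symm⟩ ih

theorem t_Vm3 : S_Vm3 := by
  intro h1 h2 N m Cl P q hok M
  constructor
  · intro hM X hX hJ
    exact h1 N m Cl q M hM X hX hJ
  · intro hM l hl hJ
    obtain ⟨X, hX, hsum, hchain⟩ := h2 N m q (fun j => (hok j).dok) l hl
    refine le_trans (hM X hX ?_) hsum
    intro a ha b hb
    have hab := hJ a ha b hb
    clear hb
    induction hab with
    | refl => exact Relation.ReflTransGen.refl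
    | tail _ hstep ih =>
      obtain ⟨r, hr | hr⟩ := hstep
      · exact ih.trans (hchain _ _ r hr)
      · exact ih.trans (vm3_symm q X _ _ (hchain _ _ r hr))

end Pool.Agent.Lib.MP_9f84a9_co
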